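import Mathlib
import Pool.Agent.Work.MP_44129c_co.E.Goodman
import Pool.Agent.Work.MP_44129c_co.N.PLift

/-!
# MP_44129c_co/X1, Defs (FIXED, do not change): `m = 3 s + 2`, one exact star gives all

Folder X1 (helper24): if one vertex `u` is exact (`c u w ∈ {0, 1}` for all `w ≠ u`) then all vertices are.
`cla c u a` = the class of colour `a` at `u`; `yv c u w` = the integer value `0` or `1` of `c u w` (for an exact `u`);
`St c s I` = the setting; `Vx c s I i u`: `u` is exact with `2 s - i` ones and `2 s + 1 + i` zeros.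
For `x ≠ u` and `w ≠ u, x` the integer `tt s i c u x w` is the lift of `c x w` in the window of the double stars with centre edge
`u x` which have exactly the leaf `w` at `x`; `dl = tt - yv` = the change of the integer sum when the leaf `w`
is moved from `u` to `x`.  `df` = the deficit of `x` (`≥ 0`; the sum of all deficits is `≤ s - i (i + 1)`).
Notation in the headers: `X = XX u x`, `S = 2 s - i` = the sum of all values at `u`, `L = cla c u 0`, `H = cla c u 1`,
`y = yv c u`, `t = tt s i c u x`, `δ = dl s i c u x`.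
-/

set_option autoImplicit false

namespace ZS44129
namespace X1

open Finset E

variable {V : Type} [Fintype V] [DecidableEq V] {m : ℕ}

/-- the vertices `w ≠ u` with `c u w = a`. -/
def cla (c : V → V → ZMod m) (u : V) (a : ZMod m) : Finset V :=
  (univ.erase u).filter (fun w => c u w = a)

/-- `u` is exact. -/
def Ex (c : V → V → ZMod m) (u : V) : Prop := ∀ w, w ≠ u → c u w = 0 ∨ c u w = 1

/-- the integer values at an exact vertex. -/
def yv (c : V → V → ZMod m) (u w : V) : ℤ := if c u w = 1 then 1 else 0

/-- the setting: `m = 3 s + 2`, `m + s` vertices, all classes have at most `2 s + 1 + I` elements. -/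
structure St (c : V → V → ZMod m) (s I : ℕ) : Prop where
  sym : ∀ x w, c x w = c w x
  zsf : ZSF m c
  card : Fintype.card V = m + s
  m3 : m = 3 * s + 2
  s5 : s = 5 ∨ 8 ≤ s
  hI : I * (I + 1) ≤ s
  cl : ∀ x a, (cla c x a).card ≤ 2 * s + 1 + I

/-- `u` is an exact vertex with `2 s - i` ones and `2 s + 1 + i` zeros. -/
structure Vx (c : V → V → ZMod m) (s I i : ℕ) (u : V) : Prop extends St c s I where
  ex : Ex c u
  c1 : (cla c u 1).card + i = 2 * s
  c0 : (cla c u 0).card = 2 * s + 1 + i
  hi : i * (i + 1) ≤ s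
  iI : i ≤ I
  i3 : 3 * i + 2 ≤ s

/-- the lift of `c x w` in the window seen from `u`. -/
def tt (s i : ℕ) (c : V → V → ZMod m) (u x w : V) : ℤ := rep ((i : ℤ) - s + yv c u w) (c x w)

/-- the change when the leaf `w` is moved from `u` to `x`. -/
def dl (s i : ℕ) (c : V → V → ZMod m) (u x w : V) : ℤ := tt s i c u x w - yv c u w

/-- for a zero `x` of `u`: the ones `w` of `u` with `t w ≥ 1`. -/
def RR (s i : ℕ) (c : V → V → ZMod m) (u x : V) : Finset V :=
  (cla c u 1).filter (fun w => 1 ≤ tt s i c u x w)

/-- for a one `x` of `u`: the zeros `w` of `u` with `t w ≤ 0`. -/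
def QQ (s i : ℕ) (c : V → V → ZMod m) (u x : V) : Finset V :=
  (cla c u 0).filter (fun w => tt s i c u x w ≤ 0)

/-- the deficit. -/
def df (s i : ℕ) (c : V → V → ZMod m) (u x : V) : ℤ :=
  if c u x = 1 then ((QQ s i c u x).card : ℤ) - s else ((RR s i c u x).card : ℤ) - s

/-- the `w` on which `u` and `x` disagree. -/
def sg (s i : ℕ) (c : V → V → ZMod m) (u x : V) : Finset V :=
  (XX u x).filter (fun w => (c u w = 1 ∧ tt s i c u x w ≤ 0) ∨ (c u w = 0 ∧ 1 ≤ tt s i c u x w))

end X1
end ZS44129
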