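import Mathlib
import Pool.Agent.Work.MP_44129c_co.X1.Defs

/-!
# MP_44129c_co/X1, Avg (size M): the averaging argument

`G` = the exact vertices, `B` = the others.
PROOF.  Fix `x ∈ B`.  `∑_{u ∈ G} |{w ∈ G \ {u} : c u w ≠ c x w}| = ∑_{w ∈ G} |{u ∈ G \ {w} : c u w ≠ c x w}|` (exchange the sums).  For `w ∈ G`
all `c w v` (`v ≠ w`) are `0` or `1`; if `c x w = 0` the inner number is `|{u ∈ G : u ≠ w, c w u = 1}| = |cla c w 1| - b₁(w)` with
`b₁(w) = |{v ∈ B : c w v = 1}|` (`V = G ⊔ B`); if `c x w = 1` it is `|cla c w 0| - b₀(w)`.  Sum over `x ∈ B` (and exchange):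
`∑_{w ∈ G} (b₀(w) (|cla c w 1| - b₁(w)) + b₁(w) (|cla c w 0| - b₀(w))) ≤ ∑_{x ∈ B} ∑_{u ∈ G} (s + 2) =
∑_{w ∈ G} (b₀(w) + b₁(w)) (s + 2)`, as `b₀(w) + b₁(w) = |B|`.
-/

set_option autoImplicit false

namespace ZS44129
namespace X1

open Finset E

variable {V : Type} [Fintype V] [DecidableEq V] {m : ℕ}

/-- the elements of a class are exact or not. -/
private theorem cla_split {c : V → V → ZMod m} (G B : Finset V)
    (hG : ∀ w, w ∈ G ↔ Ex c w) (hB : ∀ w, w ∈ B ↔ ¬ Ex c w) {w : V} (hw : w ∈ G) (a : ZMod m) :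
    ((G.erase w).filter (fun u => c w u = a)).card + (B.filter (fun v => c w v = a)).card =
      (cla c w a).card := by
  rw [← card_union_of_disjoint]
  · apply congrArg
    ext v
    simp only [cla, mem_union, mem_filter, mem_erase, mem_univ, and_true, hG, hB]
    have hwB : Ex c w := (hG w).1 hw
    constructor
    · rintro (⟨⟨h1, _⟩, h3⟩ | ⟨h1, h2⟩)
      · exact ⟨h1, h3⟩
      · exact ⟨fun h => h1 (h ▸ hwB), h2⟩
    · rintro ⟨h1, h2⟩
      by_cases h3 : Ex c v
      · exact Or.inl ⟨⟨h1, h3⟩, h2⟩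
      · exact Or.inr ⟨h3, h2⟩
  · rw [Finset.disjoint_left]
    intro v h1 h2
    exact (hB v).1 (mem_filter.1 h2).1 ((hG v).1 (mem_erase.1 (mem_filter.1 h1).1).2)

theorem avg {c : V → V → ZMod m} (hm : 2 ≤ m) (hsym : ∀ x w, c x w = c w x) (G B : Finset V)
    (hG : ∀ w, w ∈ G ↔ Ex c w) (hB : ∀ w, w ∈ B ↔ ¬ Ex c w) (s : ℕ)
    (h : ∀ u ∈ G, ∀ x ∈ B, ((G.erase u).filter (fun w => c u w ≠ c x w)).card ≤ s + 2) :
    ∑ w ∈ G, (((B.filter (fun v => c w v = 0)).card : ℤ) * ((cla c w 1).card - s - 2) +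
      ((B.filter (fun v => c w v = 1)).card : ℤ) * ((cla c w 0).card - s - 2)) ≤
    ∑ w ∈ G, 2 * ((B.filter (fun v => c w v = 0)).card : ℤ) *
      (B.filter (fun v => c w v = 1)).card := by
  have h01 : (0 : ZMod m) ≠ 1 := by
    have : Fact (1 < m) := ⟨by omega⟩
    exact zero_ne_one
  -- the inner number
  have key : ∀ w ∈ G, ∀ x ∈ B, (((G.erase w).filter (fun u => c u w ≠ c x w)).card : ℤ) =
      (if c w x = 0 then ((cla c w 1).card : ℤ) - (B.filter (fun v => c w v = 1)).card else 0) +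
      (if c w x = 1 then ((cla c w 0).card : ℤ) - (B.filter (fun v => c w v = 0)).card else 0) := by
    intro w hw x hx
    have hwE := (hG w).1 hw
    have hxw : x ≠ w := fun h => (hB x).1 hx (h ▸ hwE)
    have e1 := cla_split G B hG hB hw 1
    have e0 := cla_split G B hG hB hw 0
    rcases hwE x hxw with h0 | h0
    · rw [if_pos h0, if_neg (by rw [h0]; exact h01), add_zero, ← e1]
      have : (G.erase w).filter (fun u => c u w ≠ c x w) = (G.erase w).filter (fun u => c w u = 1) := by
        apply filter_congr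
        intro u hu
        rw [hsym u w, hsym x w, h0]
        rcases hwE u (mem_erase.1 hu).1 with h2 | h2
        · rw [h2]; simp [h01]
        · rw [h2]; simp [h01.symm]
      rw [this]
      push_cast
      ring
    · rw [if_neg (by rw [h0]; exact h01.symm), if_pos h0, zero_add, ← e0]
      have : (G.erase w).filter (fun u => c u w ≠ c x w) = (G.erase w).filter (fun u => c w u = 0) := by
        apply filter_congr
        intro u hu
        rw [hsym u w, hsym x w, h0]
        rcases hwE u (mem_erase.1 hu).1 with h2 | h2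
        · rw [h2]; simp [h01]
        · rw [h2]; simp [h01.symm]
      rw [this]
      push_cast
      ring
  -- exchange
  have exch : ∀ x ∈ B, ∑ u ∈ G, (((G.erase u).filter (fun w => c u w ≠ c x w)).card : ℤ) =
      ∑ w ∈ G, (((G.erase w).filter (fun u => c u w ≠ c x w)).card : ℤ) := by
    intro x _
    have e1 : ∀ u ∈ G, (((G.erase u).filter (fun w => c u w ≠ c x w)).card : ℤ) =
        ∑ w ∈ G, if w ≠ u ∧ c u w ≠ c x w then 1 else 0 := by
      intro u _
      rw [Finset.sum_boole]
      congr 2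
      ext w
      simp only [mem_filter, mem_erase]
      tauto
    have e2 : ∀ w ∈ G, (((G.erase w).filter (fun u => c u w ≠ c x w)).card : ℤ) =
        ∑ u ∈ G, if w ≠ u ∧ c u w ≠ c x w then 1 else 0 := by
      intro w _
      rw [Finset.sum_boole]
      congr 2
      ext u
      simp only [mem_filter, mem_erase]
      constructor
      · rintro ⟨⟨a, b⟩, d⟩
        exact ⟨b, Ne.symm a, d⟩
      · rintro ⟨b, a, d⟩
        exact ⟨⟨Ne.symm a, b⟩, d⟩
    rw [Finset.sum_congr rfl e1, Finset.sum_congr rfl e2, Finset.sum_comm]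
  have hle : ∀ x ∈ B, ∑ w ∈ G, (((G.erase w).filter (fun u => c u w ≠ c x w)).card : ℤ) ≤
      ∑ _w ∈ G, ((s : ℤ) + 2) := by
    intro x hx
    rw [← exch x hx]
    apply Finset.sum_le_sum
    intro u hu
    exact_mod_cast h u hu x hx
  have hle2 : ∑ x ∈ B, ∑ w ∈ G, (((G.erase w).filter (fun u => c u w ≠ c x w)).card : ℤ) ≤
      ∑ x ∈ B, ∑ _w ∈ G, ((s : ℤ) + 2) := Finset.sum_le_sum hle
  rw [Finset.sum_comm, Finset.sum_comm (s := B) (t := G)] at hle2
  have hl : ∀ w ∈ G, ∑ x ∈ B, (((G.erase w).filter (fun u => c u w ≠ c x w)).card : ℤ) =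
      ((B.filter (fun v => c w v = 0)).card : ℤ) *
        (((cla c w 1).card : ℤ) - (B.filter (fun v => c w v = 1)).card) +
      ((B.filter (fun v => c w v = 1)).card : ℤ) *
        (((cla c w 0).card : ℤ) - (B.filter (fun v => c w v = 0)).card) := by
    intro w hw
    rw [Finset.sum_congr rfl (key w hw), Finset.sum_add_distrib, ← Finset.sum_filter,
      ← Finset.sum_filter, Finset.sum_const, Finset.sum_const, nsmul_eq_mul, nsmul_eq_mul]
  have hr : ∀ w ∈ G, ∑ _x ∈ B, ((s : ℤ) + 2) =
      (((B.filter (fun v => c w v = 0)).card : ℤ) + (B.filter (fun v => c w v = 1)).card) *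
        (s + 2) := by
    intro w hw
    have hwE := (hG w).1 hw
    rw [Finset.sum_const, nsmul_eq_mul]
    congr 1
    rw [← Nat.cast_add, ← card_union_of_disjoint]
    · congr 2
      ext v
      simp only [mem_union, mem_filter]
      constructor
      · intro hv
        have hvw : v ≠ w := fun h => (hB v).1 hv (h ▸ hwE)
        rcases hwE v hvw with h2 | h2
        · exact Or.inl ⟨hv, h2⟩
        · exact Or.inr ⟨hv, h2⟩
      · rintro (⟨h2, _⟩ | ⟨h2, _⟩) <;> exact h2
    · rw [Finset.disjoint_left]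
      intro v h1 h2
      exact h01 ((mem_filter.1 h1).2.symm.trans (mem_filter.1 h2).2)
  rw [Finset.sum_congr rfl hl, Finset.sum_congr rfl hr] at hle2
  have hfin : ∑ w ∈ G, (((B.filter (fun v => c w v = 0)).card : ℤ) * ((cla c w 1).card - s - 2) +
      ((B.filter (fun v => c w v = 1)).card : ℤ) * ((cla c w 0).card - s - 2)) -
      ∑ w ∈ G, 2 * ((B.filter (fun v => c w v = 0)).card : ℤ) *
        (B.filter (fun v => c w v = 1)).card =
      ∑ w ∈ G, (((B.filter (fun v => c w v = 0)).card : ℤ) *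
        (((cla c w 1).card : ℤ) - (B.filter (fun v => c w v = 1)).card) +
      ((B.filter (fun v => c w v = 1)).card : ℤ) *
        (((cla c w 0).card : ℤ) - (B.filter (fun v => c w v = 0)).card)) -
      ∑ w ∈ G, (((B.filter (fun v => c w v = 0)).card : ℤ) +
        (B.filter (fun v => c w v = 1)).card) * (s + 2) := by
    rw [← Finset.sum_sub_distrib, ← Finset.sum_sub_distrib]
    apply Finset.sum_congr rfl
    intro w _
    ring
  linarith

end X1
end ZS44129
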