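import Mathlib
import Pool.Agent.Work.MP_44129c_co.X1.Defs

/-!
# MP_44129c_co/X1, Base (size M): exact vertices

PROOF.  `nume`: arithmetic (`m = 3 s + 2`; for even `m = 2 M`: `s` is even, `s ≥ 8`, `2 M = 3 s + 2`, so `4 (M * M + s) <
4 (s * s + M * s + M)` says `9 s s + 12 s + 4 + 4 s < 4 s s + 6 s s + 4 s + 6 s + 4`).  `st_refl`: `zsf_refl` (E/Refl) and
`cla (1 - c) x a = cla c x (1 - a)`.
`sl_ex`: a set `A` of `m` vertices `≠ u` is a star with centre `u`: pick `v ∈ A`, `X = A \ {v}`, `Y = ∅` in `ZSF`; the number `k`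
of ones in `A` is `≢ 0` modulo `m`, `0 ≤ k ≤ m`.  `LL_ex`, `HH_ex`: `(0 : ZMod m) ≠ 1` as `m ≥ 2`.  `cla_card`: `4 s + 2 = m + s`
vertices.  `exists_vx`: `goodman_star` (E/Goodman) with `exL = exH = 0`: `s (l + h) ≤ l h`, where `h = 2 s - i`, `l = 2 s + 1 + i`,
so `i (i + 1) ≤ s`; `l ≤ 2 s + 1 + I` by `cl`, so `i ≤ I`; `3 i + 2 ≤ s`: `i ≤ 1`: `s ≥ 5`; `i = 2`: `6 ≤ s`, so `8 ≤ s`; `i ≥ 3`:
`i (i + 1) ≥ 3 i + 2` (`nlinarith`).
-/

set_option autoImplicit false

namespace ZS44129
namespace X1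

open Finset E

variable {V : Type} [Fintype V] [DecidableEq V] {m : ℕ}

private theorem zero_ne_one' (hm : 2 ≤ m) : (0 : ZMod m) ≠ 1 := by
  haveI : Fact (1 < m) := ⟨by omega⟩
  exact zero_ne_one

theorem nume {c : V → V → ZMod m} {s I : ℕ} (h : St c s I) : NumE m s := by
  have h3 := h.m3
  have h5 := h.s5
  refine ⟨by omega, Or.inl (by omega), ?_⟩
  intro M hM
  have h6 : 8 ≤ s := by omega
  obtain ⟨t, ht⟩ : ∃ t, s = 2 * t := ⟨s / 2, by omega⟩
  have hM2 : M = 3 * t + 1 := by omega
  refine ⟨by omega, ?_⟩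
  have h7 : 4 ≤ t := by omega
  rw [hM2, ht]
  nlinarith

theorem ex_refl {c : V → V → ZMod m} {u : V} : Ex (fun x w => 1 - c x w) u ↔ Ex c u := by
  unfold Ex
  constructor
  · intro h w hw
    rcases h w hw with h1 | h1
    · right
      exact (sub_eq_zero.1 h1).symm
    · left
      exact sub_eq_self.1 h1
  · intro h w hw
    rcases h w hw with h1 | h1
    · right
      show 1 - c u w = 1
      rw [h1, sub_zero]
    · left
      show 1 - c u w = 0
      rw [h1, sub_self]

theorem cla_refl {c : V → V → ZMod m} (u : V) (a : ZMod m) :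
    cla (fun x w => 1 - c x w) u a = cla c u (1 - a) := by
  unfold cla
  refine Finset.filter_congr (fun w _ => ?_)
  show 1 - c u w = a ↔ c u w = 1 - a
  constructor
  · intro h
    rw [← h, sub_sub_cancel]
  · intro h
    rw [h, sub_sub_cancel]

theorem st_refl {c : V → V → ZMod m} {s I : ℕ} (h : St c s I) :
    St (fun x w => 1 - c x w) s I := by
  refine ⟨fun x w => by rw [h.sym x w], zsf_refl h.zsf, h.card, h.m3, h.s5, h.hI, ?_⟩
  intro x a
  rw [cla_refl]
  exact h.cl x (1 - a)

theorem cla_card {c : V → V → ZMod m} {s I : ℕ} (h : St c s I) {u : V} (hu : Ex c u) :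
    (cla c u 0).card + (cla c u 1).card = 4 * s + 1 := by
  have hm : 2 ≤ m := by
    have := h.m3
    omega
  have hne := zero_ne_one' hm
  have h1 : cla c u 0 = (univ.erase u).filter (fun w => ¬ c u w = 1) := by
    unfold cla
    refine Finset.filter_congr (fun w hw => ?_)
    constructor
    · intro h2 h3
      exact hne (h2.symm.trans h3)
    · intro h2
      exact (hu w (Finset.ne_of_mem_erase hw)).resolve_right h2
  have h2 := Finset.card_filter_add_card_filter_not (s := univ.erase u) (fun w => c u w = 1)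
  have h3 : (univ.erase u).card = m + s - 1 := by
    rw [Finset.card_erase_of_mem (Finset.mem_univ u), Finset.card_univ, h.card]
  have h4 : cla c u 1 = (univ.erase u).filter (fun w => c u w = 1) := rfl
  rw [h1, h4]
  have h5 := h.m3
  omega

theorem sl_ex [NeZero m] {c : V → V → ZMod m} {s I : ℕ} (h : St c s I) {u : V} (hu : Ex c u) :
    SL c u (yv c u) := by
  have hm : 2 ≤ m := by
    have := h.m3
    omega
  have hcast : ∀ w, w ≠ u → (yv c u w : ZMod m) = c u w := by
    intro w hw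
    unfold yv
    rcases hu w hw with h1 | h1
    · rw [h1, if_neg (zero_ne_one' hm), Int.cast_zero]
    · rw [h1, if_pos rfl, Int.cast_one]
  have h01 : ∀ w, 0 ≤ yv c u w ∧ yv c u w ≤ 1 := by
    intro w
    unfold yv
    split_ifs <;> constructor <;> norm_num
  refine ⟨hcast, ?_⟩
  intro A hA hAm
  have hAne : A.Nonempty := by
    rw [← Finset.card_pos, hAm]
    omega
  obtain ⟨v, hv⟩ := hAne
  have hvu : v ≠ u := Finset.ne_of_mem_erase (hA hv)
  have h1 := h.zsf u v hvu.symm (A.erase v) ∅ (Finset.disjoint_empty_right _)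
    (fun h2 => Finset.ne_of_mem_erase (hA (Finset.mem_of_mem_erase h2)) rfl)
    (Finset.notMem_erase v A) (Finset.notMem_empty _) (Finset.notMem_empty _) (by
      rw [Finset.card_erase_of_mem hv, hAm, Finset.card_empty]
      omega)
  have h2 : ((∑ w ∈ A, yv c u w : ℤ) : ZMod m) ≠ 0 := by
    intro h3
    apply h1
    rw [Finset.sum_empty, add_zero, Finset.add_sum_erase A (fun x => c u x) hv, ← h3,
      Int.cast_sum]
    exact Finset.sum_congr rfl (fun w hw => (hcast w (Finset.ne_of_mem_erase (hA hw))).symm)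
  have h3 : 0 ≤ ∑ w ∈ A, yv c u w := Finset.sum_nonneg (fun w _ => (h01 w).1)
  have h4 : ∑ w ∈ A, yv c u w ≤ m := by
    calc ∑ w ∈ A, yv c u w ≤ ∑ _w ∈ A, (1 : ℤ) := Finset.sum_le_sum (fun w _ => (h01 w).2)
      _ = m := by rw [Finset.sum_const, hAm, nsmul_eq_mul, mul_one]
  have h5 : ∑ w ∈ A, yv c u w ≠ 0 := by
    intro h6
    apply h2
    rw [h6, Int.cast_zero]
  have h6 : ∑ w ∈ A, yv c u w ≠ m := by
    intro h7
    apply h2
    rw [h7, Int.cast_natCast, ZMod.natCast_self]
  omega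

theorem LL_ex {c : V → V → ZMod m} {s I : ℕ} (h : St c s I) {u : V} (hu : Ex c u) :
    LL u (yv c u) = cla c u 0 := by
  have hm : 2 ≤ m := by
    have := h.m3
    omega
  have hne := zero_ne_one' hm
  unfold LL cla
  refine Finset.filter_congr (fun w hw => ?_)
  unfold yv
  rcases hu w (Finset.ne_of_mem_erase hw) with h1 | h1
  · rw [h1, if_neg hne]
    simp
  · rw [h1, if_pos rfl]
    constructor
    · intro h2
      norm_num at h2
    · intro h2
      exact absurd h2.symm hne

theorem HH_ex {c : V → V → ZMod m} (u : V) : HH u (yv c u) = cla c u 1 := by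
  unfold HH cla
  refine Finset.filter_congr (fun w _ => ?_)
  unfold yv
  split_ifs with h1
  · exact ⟨fun _ => h1, fun _ => le_refl _⟩
  · constructor
    · intro h2
      norm_num at h2
    · intro h2
      exact absurd h2 h1

theorem exL_ex {c : V → V → ZMod m} (u : V) : exL u (yv c u) = 0 := by
  unfold exL
  refine Finset.sum_eq_zero (fun w hw => ?_)
  have h1 : yv c u w ≤ 0 := (Finset.mem_filter.1 hw).2
  have h2 : 0 ≤ yv c u w := by
    unfold yv
    split_ifs <;> norm_num
  omega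

theorem exH_ex {c : V → V → ZMod m} (u : V) : exH u (yv c u) = 0 := by
  unfold exH
  refine Finset.sum_eq_zero (fun w hw => ?_)
  have h1 : 1 ≤ yv c u w := (Finset.mem_filter.1 hw).2
  have h2 : yv c u w ≤ 1 := by
    unfold yv
    split_ifs <;> norm_num
  omega

theorem exists_vx [NeZero m] {c : V → V → ZMod m} {s I : ℕ} (h : St c s I) {u : V} (hu : Ex c u)
    (h1 : (cla c u 1).card ≤ 2 * s) : ∃ i, Vx c s I i u := by
  have h5 := h.s5
  have hc := cla_card h hu
  obtain ⟨i, hi⟩ : ∃ i, (cla c u 1).card + i = 2 * s := ⟨2 * s - (cla c u 1).card, by omega⟩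
  have h0 : (cla c u 0).card = 2 * s + 1 + i := by omega
  have hs2 : (2 : ℤ) ≤ s := by omega
  have hg := goodman_star h.sym h.zsf (sl_ex h hu) h.card
    (by rw [exL_ex]; linarith) (by rw [exH_ex]; linarith) (nume h)
  rw [exL_ex, exH_ex, LL_ex h hu, HH_ex] at hg
  have e1 : ((cla c u 1).card : ℤ) = 2 * s - i := by
    have : ((cla c u 1).card : ℤ) + i = 2 * s := by exact_mod_cast hi
    linarith
  have e0 : ((cla c u 0).card : ℤ) = 2 * s + 1 + i := by exact_mod_cast h0
  rw [e0, e1] at hg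
  have hii : i * (i + 1) ≤ s := by
    have : (i : ℤ) * (i + 1) ≤ s := by nlinarith
    exact_mod_cast this
  have hcl := h.cl u 0
  refine ⟨i, h, hu, hi, h0, hii, by omega, ?_⟩
  rcases Nat.lt_or_ge i 3 with h6 | h6
  · interval_cases i <;> omega
  · nlinarith

end X1
end ZS44129
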