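import Mathlib
import Pool.Agent.Work.MP_44129c_co.X1.Base

/-!
# MP_44129c_co/X1, Win (size M): the families with `B` at `x`, the windows

PROOF of `famx`.  `κ = S + ∑_B (t - y) - τ ∈ [0, s - 1]`.  `X \ B` contains at least `h - 1 - |B| ≥ s - 1` ones (`h = 2 s - i`, at most one
of them is `x`) and at least `l - 1 - |B| ≥ s - 1` zeros.  Choose `Q ⊆ X \ B` with `κ` ones and `s - 1 - κ` zeros; `A = (X \ B) \ Q` has
`(m + s - 2) - |B| - (s - 1) = m - 1 - |B|` elements, and `y x + ∑_A y = S - ∑_B y - κ` (`S = ∑_{w ≠ u} y w = |H|`).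
`fam_no`: the double star with centre edge `u x`, leaves `A` at `u`, `B` at `x` has sum `≡ τ` in `ZMod m` (`c u x ≡ y x`
as `u` is exact), so `m ∤ τ` by `ZSF`.
`dl_win`: `dl ≥ i - s` is `rep_ge` (E/Rep).  By `rep_lt`: `dl ≤ i - s + m - 1 = i + 2 s + 1`, so `S + dl - (s - 1) ≤ m`; `fam_no` with `B = {w}`
(`1 + i ≤ s`) and `τ = m`: `S + dl ≥ m` is impossible, so `dl ≤ m - 1 - S = s + 1 + i`.
`tt_ex`: `c x w = c w x ∈ {0, 1}`, the integer `yv c x w` lifts it and lies in the interval of `rep` (`i + 1 ≤ s`): `rep_unique`.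
-/

set_option autoImplicit false

namespace ZS44129
namespace X1

open Finset E

variable {V : Type} [Fintype V] [DecidableEq V] {m : ℕ}

theorem tt_cast [NeZero m] (s i : ℕ) (c : V → V → ZMod m) (u x w : V) :
    ((tt s i c u x w : ℤ) : ZMod m) = c x w := by
  unfold tt
  exact rep_cast _ _

private theorem mem_XXw {u x w : V} : w ∈ XX u x ↔ w ≠ u ∧ w ≠ x := by
  unfold XX
  rw [Finset.mem_erase, Finset.mem_erase]
  constructor
  · rintro ⟨h1, h2, -⟩
    exact ⟨h2, h1⟩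
  · rintro ⟨h1, h2⟩
    exact ⟨h2, h1, Finset.mem_univ w⟩

theorem card_XX {s : ℕ} (hV : Fintype.card V = m + s) {u x : V} (hx : x ≠ u) :
    (XX u x).card + 2 = m + s := by
  have h1 : x ∈ (univ : Finset V).erase u := Finset.mem_erase.2 ⟨hx, Finset.mem_univ x⟩
  have h2 := Finset.card_pos.2 ⟨x, h1⟩
  have h3 : 0 < (univ : Finset V).card := Finset.card_pos.2 ⟨u, Finset.mem_univ u⟩
  unfold XX
  rw [Finset.card_erase_of_mem h1, Finset.card_erase_of_mem (Finset.mem_univ u)]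
  rw [Finset.card_erase_of_mem (Finset.mem_univ u)] at h2
  rw [Finset.card_univ] at h2 h3 ⊢
  omega

private theorem zne (hm : 2 ≤ m) : (0 : ZMod m) ≠ 1 := by
  haveI : Fact (1 < m) := ⟨hm⟩
  exact zero_ne_one

private theorem yv_cast {c : V → V → ZMod m} (hm : 2 ≤ m) {u w : V} (hu : Ex c u) (hw : w ≠ u) :
    ((yv c u w : ℤ) : ZMod m) = c u w := by
  unfold yv
  rcases hu w hw with h | h
  · rw [if_neg (by rw [h]; exact zne hm), h]
    exact Int.cast_zero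
  · rw [if_pos h, h]
    exact Int.cast_one

private theorem yv_rng (c : V → V → ZMod m) (u w : V) : 0 ≤ yv c u w ∧ yv c u w ≤ 1 := by
  unfold yv
  split_ifs <;> constructor <;> norm_num

private theorem sum_yv (c : V → V → ZMod m) (u : V) :
    ∑ w ∈ univ.erase u, yv c u w = ((cla c u 1).card : ℤ) := by
  unfold yv cla
  exact Finset.sum_boole _ _

private theorem mem_cla {c : V → V → ZMod m} {u w : V} {a : ZMod m} :
    w ∈ cla c u a ↔ w ≠ u ∧ c u w = a := by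
  unfold cla
  rw [Finset.mem_filter, Finset.mem_erase]
  constructor
  · rintro ⟨⟨h1, -⟩, h2⟩
    exact ⟨h1, h2⟩
  · rintro ⟨h1, h2⟩
    exact ⟨⟨h1, Finset.mem_univ w⟩, h2⟩

private theorem card_rem (A B : Finset V) (x : V) :
    A.card ≤ ((A \ B).erase x).card + B.card + 1 := by
  have h1 : A.card ≤ (A \ B).card + B.card := by
    have := Finset.card_le_card_sdiff_add_card (s := A) (t := B)
    omega
  have h2 : (A \ B).card - 1 ≤ ((A \ B).erase x).card := Finset.pred_card_le_card_erase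
  omega

theorem famx {c : V → V → ZMod m} {s I i : ℕ} {u : V} (H : Vx c s I i u) {x : V} (hx : x ≠ u)
    (t : V → ℤ) (B : Finset V) (hB : B ⊆ XX u x) (hBc : B.card + i ≤ s) (τ : ℤ)
    (h1 : 2 * s - i + ∑ w ∈ B, (t w - yv c u w) ≤ τ + (s - 1))
    (h2 : τ ≤ 2 * s - i + ∑ w ∈ B, (t w - yv c u w)) :
    ∃ A : Finset V, A ⊆ XX u x ∧ Disjoint A B ∧ A.card + B.card + 1 = m ∧
      yv c u x + ∑ w ∈ A, yv c u w + ∑ w ∈ B, t w = τ := by
  have hm : 2 ≤ m := by have := H.m3; omega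
  have hs : 2 ≤ s := by have := H.i3; omega
  have hc1 := H.c1
  have hc0 := H.c0
  have hm3 := H.m3
  obtain ⟨k, hk⟩ : ∃ k : ℕ, (k : ℤ) = 2 * s - i + ∑ w ∈ B, (t w - yv c u w) - τ :=
    ⟨(2 * s - i + ∑ w ∈ B, (t w - yv c u w) - τ).toNat, Int.toNat_of_nonneg (by linarith)⟩
  have hks : k + 1 ≤ s := by
    have : (k : ℤ) + 1 ≤ s := by linarith
    exact_mod_cast this
  have r1 := card_rem (cla c u 1) B x
  have r0 := card_rem (cla c u 0) B x
  obtain ⟨Q1, hQ1, hQ1c⟩ := Finset.exists_subset_card_eq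
    (s := (cla c u 1 \ B).erase x) (n := k) (by omega)
  obtain ⟨Q0, hQ0, hQ0c⟩ := Finset.exists_subset_card_eq
    (s := (cla c u 0 \ B).erase x) (n := s - 1 - k) (by omega)
  have m1 : ∀ w ∈ Q1, w ≠ x ∧ w ∉ B ∧ w ≠ u ∧ c u w = 1 := by
    intro w hw
    have h3 := Finset.mem_erase.1 (hQ1 hw)
    have h4 := Finset.mem_sdiff.1 h3.2
    have h5 := mem_cla.1 h4.1
    exact ⟨h3.1, h4.2, h5.1, h5.2⟩
  have m0 : ∀ w ∈ Q0, w ≠ x ∧ w ∉ B ∧ w ≠ u ∧ c u w = 0 := by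
    intro w hw
    have h3 := Finset.mem_erase.1 (hQ0 hw)
    have h4 := Finset.mem_sdiff.1 h3.2
    have h5 := mem_cla.1 h4.1
    exact ⟨h3.1, h4.2, h5.1, h5.2⟩
  have hdis : Disjoint Q1 Q0 := by
    rw [Finset.disjoint_left]
    intro w h3 h4
    have h5 := (m1 w h3).2.2.2
    rw [(m0 w h4).2.2.2] at h5
    exact zne hm h5
  have hQsub : Q1 ∪ Q0 ⊆ XX u x \ B := by
    intro w hw
    rw [Finset.mem_sdiff, mem_XXw]
    rcases Finset.mem_union.1 hw with h3 | h3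
    · have h4 := m1 w h3
      exact ⟨⟨h4.2.2.1, h4.1⟩, h4.2.1⟩
    · have h4 := m0 w h3
      exact ⟨⟨h4.2.2.1, h4.1⟩, h4.2.1⟩
  have hX := card_XX H.card hx
  have hXB : (XX u x \ B).card = (XX u x).card - B.card := Finset.card_sdiff_of_subset hB
  have hBX : B.card ≤ (XX u x).card := Finset.card_le_card hB
  have hQc : (Q1 ∪ Q0).card = s - 1 := by
    rw [Finset.card_union_of_disjoint hdis, hQ1c, hQ0c]
    omega
  have hAc : ((XX u x \ B) \ (Q1 ∪ Q0)).card = (XX u x).card - B.card - (s - 1) := by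
    rw [Finset.card_sdiff_of_subset hQsub, hXB, hQc]
  have sQ1 : ∑ w ∈ Q1, yv c u w = k := by
    have h3 : ∑ w ∈ Q1, yv c u w = ∑ _w ∈ Q1, (1 : ℤ) :=
      Finset.sum_congr rfl (fun w hw => if_pos (m1 w hw).2.2.2)
    rw [h3, Finset.sum_const, hQ1c, nsmul_eq_mul, mul_one]
  have sQ0 : ∑ w ∈ Q0, yv c u w = 0 := by
    apply Finset.sum_eq_zero
    intro w hw
    refine (if_neg ?_ : yv c u w = 0)
    rw [(m0 w hw).2.2.2]
    exact zne hm
  have e1 : ∑ w ∈ XX u x, yv c u w + yv c u x = (cla c u 1).card := by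
    rw [← sum_yv]
    unfold XX
    exact Finset.sum_erase_add _ _ (Finset.mem_erase.2 ⟨hx, Finset.mem_univ x⟩)
  have e2 : ∑ w ∈ XX u x \ B, yv c u w + ∑ w ∈ B, yv c u w = ∑ w ∈ XX u x, yv c u w :=
    Finset.sum_sdiff hB
  have e3 : ∑ w ∈ (XX u x \ B) \ (Q1 ∪ Q0), yv c u w + ∑ w ∈ Q1 ∪ Q0, yv c u w =
      ∑ w ∈ XX u x \ B, yv c u w := Finset.sum_sdiff hQsub
  rw [Finset.sum_union hdis, sQ1, sQ0] at e3
  have hh : ((cla c u 1).card : ℤ) + i = 2 * s := by exact_mod_cast hc1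
  rw [Finset.sum_sub_distrib] at hk
  refine ⟨(XX u x \ B) \ (Q1 ∪ Q0), ?_, ?_, ?_, ?_⟩
  · exact Finset.sdiff_subset.trans Finset.sdiff_subset
  · rw [Finset.disjoint_left]
    intro w hw
    exact (Finset.mem_sdiff.1 (Finset.mem_sdiff.1 hw).1).2
  · rw [hAc]
    omega
  · linarith

/-- the sum of a double star with centre edge `u x` is not divisible by `m`. -/
theorem ds_no [NeZero m] {c : V → V → ZMod m} {s I i : ℕ} {u : V} (H : Vx c s I i u) {x : V}
    (hx : x ≠ u) (A B : Finset V) (hA : A ⊆ XX u x) (hB : B ⊆ XX u x) (hAB : Disjoint A B)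
    (hc : A.card + B.card + 1 = m) :
    ¬ (m : ℤ) ∣ (yv c u x + ∑ w ∈ A, yv c u w + ∑ w ∈ B, tt s i c u x w) := by
  intro hd
  have hm : 2 ≤ m := by have := H.m3; omega
  have hzero := (ZMod.intCast_zmod_eq_zero_iff_dvd _ m).2 hd
  push_cast at hzero
  have e1 := yv_cast hm H.ex hx
  have e2 : ∑ w ∈ A, ((yv c u w : ℤ) : ZMod m) = ∑ w ∈ A, c u w :=
    Finset.sum_congr rfl (fun w hw => yv_cast hm H.ex (mem_XXw.1 (hA hw)).1)
  have e3 : ∑ w ∈ B, ((tt s i c u x w : ℤ) : ZMod m) = ∑ w ∈ B, c x w :=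
    Finset.sum_congr rfl (fun w _ => tt_cast s i c u x w)
  rw [e1, e2, e3] at hzero
  exact H.zsf u x (Ne.symm hx) A B hAB (fun h => (mem_XXw.1 (hA h)).1 rfl)
    (fun h => (mem_XXw.1 (hA h)).2 rfl) (fun h => (mem_XXw.1 (hB h)).1 rfl)
    (fun h => (mem_XXw.1 (hB h)).2 rfl) hc hzero

theorem fam_no [NeZero m] {c : V → V → ZMod m} {s I i : ℕ} {u : V} (H : Vx c s I i u) {x : V}
    (hx : x ≠ u) (B : Finset V) (hB : B ⊆ XX u x) (hBc : B.card + i ≤ s) (τ : ℤ)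
    (h1 : 2 * s - i + ∑ w ∈ B, dl s i c u x w ≤ τ + (s - 1))
    (h2 : τ ≤ 2 * s - i + ∑ w ∈ B, dl s i c u x w) : ¬ (m : ℤ) ∣ τ := by
  obtain ⟨A, hA, hAB, hc, hs⟩ := famx H hx (tt s i c u x) B hB hBc τ h1 h2
  rw [← hs]
  exact ds_no H hx A B hA hB hAB hc

theorem dl_win [NeZero m] {c : V → V → ZMod m} {s I i : ℕ} {u : V} (H : Vx c s I i u) {x : V}
    (hx : x ≠ u) {w : V} (hw : w ∈ XX u x) :
    (i : ℤ) - s ≤ dl s i c u x w ∧ dl s i c u x w ≤ s + 1 + i := by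
  have hm3 := H.m3
  have hi3 := H.i3
  have a1 : (i : ℤ) - s + yv c u w ≤ tt s i c u x w := rep_ge _ _
  have a2 : tt s i c u x w + 1 ≤ (i : ℤ) - s + yv c u w + m := rep_lt _ _
  have hmz : (m : ℤ) = 3 * s + 2 := by exact_mod_cast hm3
  have hd : dl s i c u x w = tt s i c u x w - yv c u w := rfl
  refine ⟨by omega, ?_⟩
  by_contra hcon
  refine fam_no H hx {w} (Finset.singleton_subset_iff.2 hw)
    (by rw [Finset.card_singleton]; omega) m ?_ ?_ (dvd_refl _)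
  · rw [Finset.sum_singleton]
    omega
  · rw [Finset.sum_singleton]
    omega

theorem tt_ex [NeZero m] {c : V → V → ZMod m} {s I i : ℕ} {u : V} (H : Vx c s I i u) {x : V}
    {w : V} (hw : w ∈ XX u x) (hwe : Ex c w) : tt s i c u x w = yv c x w := by
  have hm3 := H.m3
  have hi3 := H.i3
  have hm : 2 ≤ m := by omega
  have hwx : w ≠ x := (mem_XXw.1 hw).2
  have hmz : (m : ℤ) = 3 * s + 2 := by exact_mod_cast hm3
  have y1 := yv_rng c u w
  have y2 := yv_rng c x w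
  have hc : ((yv c x w : ℤ) : ZMod m) = c x w := by
    unfold yv
    have h3 := hwe x hwx.symm
    rw [H.sym w x] at h3
    rcases h3 with h | h
    · rw [if_neg (by rw [h]; exact zne hm), h]
      exact Int.cast_zero
    · rw [if_pos h, h]
      exact Int.cast_one
  unfold tt
  exact rep_unique _ _ _ hc (by omega) (by omega)

end X1
end ZS44129
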