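import Mathlib
import Pool.Agent.Work.MP_44129c_co.X1.Win

/-!
# MP_44129c_co/X1, Gplx (size M): the propagation lemma for an exact vertex with `h ≤ 2 s`

PROOF.  `Z(A, B) = y x + ∑_A y + ∑_B t`.  Strong induction on `|B|`; suppose that all double stars with `< k = |B|` leaves at `x` have
`1 ≤ Z ≤ m - 1`, `Z(A, B)` is not in `[1, m - 1]`.  `Z` is not divisible by `m` (`ds_no`).  `k = 0`: `Z = y x + ∑_A y ∈ [0, m]` (`m` values
`0` or `1`): impossible.  `k = 1`, `B = {w}`: the complement `C = X \ (A ∪ B)` has `s - 1` elements and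
`Z = S + δ w - ∑_C y`, `0 ≤ ∑_C y ≤ s - 1`, so `Z ∈ [1, m - 1]` by `dl_win`: impossible.  In general `Z = S + δ(B) - ∑_C y`.
`k ≥ 2`, `Z = m + r`, `r ≥ 1`.  For `w ∈ B` the double star `A ∪ {w}`, `B \ {w}` has sum `Z - δ w ≤ m - 1`, so `δ w ≥ r + 1 ≥ 2`.
Let `B₁ ⊆ B`, `|B₁| = min (k - 1) (s - i)`.  `famx` for `B₁` with `τ = S + δ(B₁)` gives a double star with `|B₁| < k` leaves at `x`, so
`S + δ(B₁) ≤ m - 1`, `2 |B₁| ≤ m - 1 - S = s + 1 + i < 2 (s - i)` (`i3`).  So `|B₁| = k - 1 < s - i`, `k ≤ s - i`: `fam_no` can be used for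
`B`: no multiple of `m` is in `[S + δ(B) - (s - 1), S + δ(B)]`; this interval contains `Z ≥ m + 1`, so
`S + δ(B) - (s - 1) ≥ m + 1`.  For `w ∈ B`, `famx` for `B \ {w}` with `τ = S + δ(B) - δ w`: `S + δ(B) - δ w ≤ m - 1`.  So `δ w ≥ s + 1` for all
`w ∈ B`, and `|B| ≥ 2`: second alternative.
`k ≥ 2`, `Z = - r`, `r ≥ 1`.  For `w ∈ B`: `Z - δ w ≥ 1`, so `δ w ≤ - r - 1 ≤ - 2`.  `B₁` as before, `τ = S + δ(B₁) - (s - 1)` is attained, so
`≥ 1`, `2 |B₁| ≤ S - s = s - i < 2 (s - i)`.  So `k ≤ s - i`; the interval `[S + δ(B) - (s - 1), S + δ(B)]` contains `Z ≤ - 1` and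
not `0`, so `S + δ(B) ≤ - 1`.  `famx` for `B \ {w}` with `τ = S + δ(B) - δ w - (s - 1)`, which is `≥ 1`: `δ w ≤ S + δ(B) - s ≤ - 1 - s`:
contradiction to `dl_win` (`δ w ≥ i - s`).
-/

set_option autoImplicit false

namespace ZS44129
namespace X1

open Finset E N

variable {V : Type} [Fintype V] [DecidableEq V] {m : ℕ}

omit [Fintype V] [DecidableEq V] in
private theorem yv_nn (c : V → V → ZMod m) (u w : V) : 0 ≤ yv c u w := by
  unfold yv
  split_ifs <;> norm_num

omit [Fintype V] [DecidableEq V] in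
private theorem yv_le (c : V → V → ZMod m) (u w : V) : yv c u w ≤ 1 := by
  unfold yv
  split_ifs <;> norm_num

omit [Fintype V] [DecidableEq V] in
private theorem yv_cast {c : V → V → ZMod m} {u : V} (hu : Ex c u) {w : V} (hw : w ≠ u) :
    ((yv c u w : ℤ) : ZMod m) = c u w := by
  unfold yv
  rcases hu w hw with h | h
  · split_ifs with h2
    · rw [h2]; simp
    · rw [h]; simp
  · rw [if_pos h, h]; simp

private theorem sum_X {c : V → V → ZMod m} {s I i : ℕ} {u : V} (H : Vx c s I i u) {x : V}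
    (hx : x ≠ u) : yv c u x + ∑ w ∈ XX u x, yv c u w = 2 * s - i := by
  have h1 : x ∈ univ.erase u := mem_erase.2 ⟨hx, mem_univ _⟩
  have h2 : XX u x = (univ.erase u).erase x := rfl
  rw [h2, Finset.add_sum_erase _ _ h1]
  unfold yv
  rw [Finset.sum_boole]
  have h3 := H.c1
  unfold cla at h3
  have h4 : ((((univ.erase u).filter (fun w => c u w = 1)).card : ℕ) : ℤ) + i = 2 * s := by
    exact_mod_cast h3
  linarith

private theorem zform {c : V → V → ZMod m} {s I i : ℕ} {u : V} (H : Vx c s I i u) {x : V}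
    (hx : x ≠ u) (A B : Finset V) (hA : A ⊆ XX u x) (hB : B ⊆ XX u x) (hAB : Disjoint A B)
    (hc : A.card + B.card + 1 = m) :
    ∃ κ : ℤ, 0 ≤ κ ∧ κ + 1 ≤ s ∧ yv c u x + ∑ w ∈ A, yv c u w + ∑ w ∈ B, tt s i c u x w =
      2 * s - i + ∑ w ∈ B, dl s i c u x w - κ := by
  have hAB' : A ∪ B ⊆ XX u x := union_subset hA hB
  have h1 := Finset.sum_sdiff (f := fun w => yv c u w) hAB'
  rw [Finset.sum_union hAB] at h1
  have h2 := sum_X H hx
  have h3 : ∑ w ∈ B, dl s i c u x w = ∑ w ∈ B, tt s i c u x w - ∑ w ∈ B, yv c u w := by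
    unfold dl
    rw [Finset.sum_sub_distrib]
  have h4 : (XX u x \ (A ∪ B)).card + 1 = s := by
    have e1 := card_XX H.card hx
    have e2 := card_sdiff_add_card_eq_card hAB'
    rw [card_union_of_disjoint hAB] at e2
    omega
  refine ⟨∑ w ∈ XX u x \ (A ∪ B), yv c u w, Finset.sum_nonneg (fun w _ => yv_nn c u w), ?_, ?_⟩
  · have h5 : ∑ w ∈ XX u x \ (A ∪ B), yv c u w ≤ ∑ _w ∈ XX u x \ (A ∪ B), (1 : ℤ) :=
      Finset.sum_le_sum (fun w _ => yv_le c u w)
    rw [Finset.sum_const, nsmul_eq_mul, mul_one] at h5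
    have : (((XX u x \ (A ∪ B)).card : ℕ) : ℤ) + 1 = s := by exact_mod_cast h4
    linarith
  · rw [h3]
    linarith

theorem gplx [NeZero m] {c : V → V → ZMod m} {s I i : ℕ} {u : V} (H : Vx c s I i u) {x : V}
    (hx : x ≠ u) :
    PLift c u x (yv c u x) (yv c u) (tt s i c u x) ∨
      ∃ w₁ ∈ XX u x, ∃ w₂ ∈ XX u x, w₁ ≠ w₂ ∧ (s : ℤ) + 1 ≤ dl s i c u x w₁ ∧
        (s : ℤ) + 1 ≤ dl s i c u x w₂ := by
  by_cases hex : ∃ w₁ ∈ XX u x, ∃ w₂ ∈ XX u x, w₁ ≠ w₂ ∧ (s : ℤ) + 1 ≤ dl s i c u x w₁ ∧
        (s : ℤ) + 1 ≤ dl s i c u x w₂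
  · exact Or.inr hex
  left
  have hm3 : (m : ℤ) = 3 * s + 2 := by exact_mod_cast H.m3
  have hi3 : 3 * (i : ℤ) + 2 ≤ s := by exact_mod_cast H.i3
  have hmain : ∀ k : ℕ, ∀ A B : Finset V, A ⊆ XX u x → B ⊆ XX u x → Disjoint A B →
      A.card + B.card + 1 = m → B.card = k →
      1 ≤ yv c u x + ∑ w ∈ A, yv c u w + ∑ w ∈ B, tt s i c u x w ∧
        yv c u x + ∑ w ∈ A, yv c u w + ∑ w ∈ B, tt s i c u x w ≤ m - 1 := by
    intro k
    induction k using Nat.strong_induction_on with
    | _ k ih =>
    intro A B hA hB hAB hc hk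
    obtain ⟨κ, hκ0, hκ1, hZ⟩ := zform H hx A B hA hB hAB hc
    have hno := ds_no H hx A B hA hB hAB hc
    rcases Nat.lt_or_ge k 2 with hk2 | hk2
    · -- at most one leaf at `x`
      rcases (by omega : k = 0 ∨ k = 1) with hk' | hk'
      · have hB0 : B = ∅ := card_eq_zero.1 (by omega)
        rw [hZ, hB0, Finset.sum_empty]
        constructor <;> linarith
      · obtain ⟨w, hw⟩ := card_eq_one.1 (show B.card = 1 by omega)
        have h1 := dl_win H hx (hB (by rw [hw]; exact mem_singleton_self w))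
        rw [hZ, hw, Finset.sum_singleton]
        constructor <;> linarith
    · -- the families of smaller sets
      have hfam : ∀ B₁ : Finset V, B₁ ⊆ XX u x → B₁.card < k → B₁.card + i ≤ s →
          (s : ℤ) ≤ 2 * s - i + ∑ w ∈ B₁, dl s i c u x w ∧
            2 * s - i + ∑ w ∈ B₁, dl s i c u x w ≤ m - 1 := by
        intro B₁ h1 h2 h3
        constructor
        · obtain ⟨A', a1, a2, a3, a4⟩ := famx H hx (tt s i c u x) B₁ h1 h3
            (2 * s - i + ∑ w ∈ B₁, (tt s i c u x w - yv c u w) - (s - 1)) (by linarith)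
            (by linarith)
          have h5 := (ih _ h2 A' B₁ a1 h1 a2 a3 rfl).1
          rw [a4] at h5
          unfold dl
          linarith
        · obtain ⟨A', a1, a2, a3, a4⟩ := famx H hx (tt s i c u x) B₁ h1 h3
            (2 * s - i + ∑ w ∈ B₁, (tt s i c u x w - yv c u w)) (by linarith)
            (by linarith)
          have h5 := (ih _ h2 A' B₁ a1 h1 a2 a3 rfl).2
          rw [a4] at h5
          unfold dl
          linarith
      -- moving an element
      have hmove : ∀ w ∈ B, 1 ≤ yv c u x + ∑ w ∈ A, yv c u w + ∑ w ∈ B, tt s i c u x w -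
          dl s i c u x w ∧ yv c u x + ∑ w ∈ A, yv c u w + ∑ w ∈ B, tt s i c u x w -
          dl s i c u x w ≤ m - 1 := by
        intro w hw
        have hwA : w ∉ A := fun h => (Finset.disjoint_left.1 hAB) h hw
        have h1 : (B.erase w).card + 1 = B.card := card_erase_add_one hw
        have h2 := ih (B.erase w).card (by omega) (insert w A) (B.erase w)
          (insert_subset (hB hw) hA) ((erase_subset w B).trans hB)
          (by
            rw [Finset.disjoint_left]
            intro v hv1 hv2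
            obtain ⟨hv3, hv4⟩ := mem_erase.1 hv2
            rcases mem_insert.1 hv1 with h | h
            · exact hv3 h
            · exact (Finset.disjoint_left.1 hAB) h hv4)
          (by rw [card_insert_of_notMem hwA]; omega) rfl
        rw [Finset.sum_insert hwA] at h2
        have h3 := Finset.add_sum_erase B (fun w => tt s i c u x w) hw
        unfold dl
        constructor
        · linarith [h2.1]
        · linarith [h2.2]
      obtain ⟨Z, hZd⟩ : ∃ Z, Z = yv c u x + ∑ w ∈ A, yv c u w + ∑ w ∈ B, tt s i c u x w :=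
        ⟨_, rfl⟩
      rw [← hZd] at hno hmove hZ ⊢
      by_contra hbad
      have hbad' : Z ≤ -1 ∨ (m : ℤ) + 1 ≤ Z := by
        by_contra hb
        push Not at hb
        have h0 : Z ≠ 0 := fun h => hno (h ▸ dvd_zero _)
        have h1 : Z ≠ m := fun h => hno (h ▸ dvd_refl _)
        exact hbad ⟨by omega, by omega⟩
      rcases hbad' with hneg | hpos
      · -- down
        have hd : ∀ w ∈ B, dl s i c u x w ≤ -2 := by
          intro w hw
          have := (hmove w hw).1
          omega
        obtain ⟨B₁, hB1, hB1c⟩ := exists_subset_card_eq (s := B) (n := min (k - 1) (s - i))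
          (by omega)
        have h1 := (hfam B₁ (hB1.trans hB) (by omega) (by omega)).1
        have h2 : ∑ w ∈ B₁, dl s i c u x w ≤ B₁.card • (-2 : ℤ) :=
          Finset.sum_le_card_nsmul _ _ _ (fun w hw => hd w (hB1 hw))
        rw [nsmul_eq_mul] at h2
        have hks : k + i ≤ s := by
          by_contra hcon
          have h3 : B₁.card + i = s := by omega
          have h4 : (B₁.card : ℤ) + i = s := by exact_mod_cast h3
          nlinarith
        have h5 : 2 * s - i + ∑ w ∈ B, dl s i c u x w ≤ -1 := by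
          by_contra hcon
          exact fam_no H hx B hB (by omega) 0 (by linarith) (by omega) (dvd_zero _)
        obtain ⟨w, hw⟩ := card_pos.1 (show 0 < B.card by omega)
        have h6 : (B.erase w).card + 1 = B.card := card_erase_add_one hw
        have h7 := (hfam (B.erase w) ((erase_subset w B).trans hB) (by omega) (by omega)).1
        have h8 := Finset.add_sum_erase B (fun w => dl s i c u x w) hw
        have h9 := (dl_win H hx (hB hw)).1
        have h10 : (0 : ℤ) ≤ i := by positivity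
        linarith
      · -- up
        have hd : ∀ w ∈ B, 2 ≤ dl s i c u x w := by
          intro w hw
          have := (hmove w hw).2
          omega
        obtain ⟨B₁, hB1, hB1c⟩ := exists_subset_card_eq (s := B) (n := min (k - 1) (s - i))
          (by omega)
        have h1 := (hfam B₁ (hB1.trans hB) (by omega) (by omega)).2
        have h2 : B₁.card • (2 : ℤ) ≤ ∑ w ∈ B₁, dl s i c u x w :=
          Finset.card_nsmul_le_sum _ _ _ (fun w hw => hd w (hB1 hw))
        rw [nsmul_eq_mul] at h2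
        have hks : k + i ≤ s := by
          by_contra hcon
          have h3 : B₁.card + i = s := by omega
          have h4 : (B₁.card : ℤ) + i = s := by exact_mod_cast h3
          nlinarith
        have h5 : (m : ℤ) + s ≤ 2 * s - i + ∑ w ∈ B, dl s i c u x w := by
          by_contra hcon
          exact fam_no H hx B hB (by omega) m (by linarith) (by linarith) (dvd_refl _)
        have h11 : ∀ w ∈ B, (s : ℤ) + 1 ≤ dl s i c u x w := by
          intro w hw
          have h6 : (B.erase w).card + 1 = B.card := card_erase_add_one hw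
          have h7 := (hfam (B.erase w) ((erase_subset w B).trans hB) (by omega) (by omega)).2
          have h8 := Finset.add_sum_erase B (fun w => dl s i c u x w) hw
          linarith
        obtain ⟨a, ha, b, hb, hab⟩ := one_lt_card.1 (show 1 < B.card by omega)
        exact hex ⟨a, hB ha, b, hB hb, hab, h11 a ha, h11 b hb⟩
  exact ⟨hx.symm, fun w hw _ => yv_cast H.ex hw, fun w _ _ => tt_cast s i c u x w,
    yv_cast H.ex hx, fun A B hA hB hAB hc => hmain B.card A B hA hB hAB hc rfl⟩

end X1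
end ZS44129
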