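import Mathlib
import Pool.Agent.Work.MP_44129c_co.X1.Win

/-!
# MP_44129c_co/X1, Bud (size S-M): the budget of the deficits

PROOF.  `LL u y = cla c u 0`, `HH u y = cla c u 1`, `exL = exH = 0` (X1/Base), so `lo m u y = m - l = s + 1 - i` and
`ap m u y - m = - h = - (2 s - i)`.
`UU_eq` (`x` a zero of `u`): `UU c u y x` is the filter of `HH` by `1 ≤ rep (2 - lo) (c x w)`, and `2 - lo = i - s + 1 = i - s + y w` for
`w ∈ HH`: the same `rep` as in `tt`.
`PP_eq` (`w` a one of `u`): `PP c u y w` is the filter of `LL` by `rep (ap - m) (c w x) ≤ 0`; for `x ∈ LL` (`y x = 0`) the integer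
`tt s i c u w x` is in `[i - s, s + 1 + i]` (`dl_win` for the pair `u w`, `x ∈ XX u w`), so it is in
`[- (2 s - i), - (2 s - i) + m - 1]` and `rep_unique` says `rep (ap - m) (c w x) = tt s i c u w x`.
`df_nonneg`: `goodL`, `goodH` (E/Goodman).  `df_sum`: `dc0` (E/Dc): `∑ |UU| + ∑ |PP| ≤ l h` and `l h - s (l + h) = s - i (i + 1)`
(`h = 2 s - i`, `l = 2 s + 1 + i`); `univ.erase u` is the disjoint union of `cla c u 0` and `cla c u 1`.
-/

set_option autoImplicit false

namespace ZS44129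
namespace X1

open Finset E

variable {V : Type} [Fintype V] [DecidableEq V] {m : ℕ}

private theorem mem_cla {c : V → V → ZMod m} {u w : V} {a : ZMod m} :
    w ∈ cla c u a ↔ w ≠ u ∧ c u w = a := by
  unfold cla
  rw [mem_filter, mem_erase]
  constructor
  · rintro ⟨⟨h1, -⟩, h2⟩
    exact ⟨h1, h2⟩
  · rintro ⟨h1, h2⟩
    exact ⟨⟨h1, mem_univ _⟩, h2⟩

private theorem z_ne_o {c : V → V → ZMod m} {s I i : ℕ} {u : V} (H : Vx c s I i u) :
    (0 : ZMod m) ≠ 1 := by
  have h3 := H.m3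
  haveI : Fact (1 < m) := ⟨by omega⟩
  exact zero_ne_one

theorem UU_eq {c : V → V → ZMod m} {s I i : ℕ} {u : V} (H : Vx c s I i u) {x : V}
    (hx : x ∈ cla c u 0) : UU c u (yv c u) x = RR s i c u x := by
  have h3 := H.m3
  have h0 := H.c0
  have hlo : 2 - lo m u (yv c u) = (i : ℤ) - s + 1 := by
    unfold lo
    rw [LL_ex H.toSt H.ex, exL_ex, h0, h3]
    push_cast
    ring
  unfold UU RR
  rw [HH_ex, hlo]
  refine Finset.filter_congr (fun w hw => ?_)
  have h1 : yv c u w = 1 := by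
    unfold yv
    rw [if_pos (mem_cla.1 hw).2]
  unfold tt
  rw [h1]

theorem PP_eq [NeZero m] {c : V → V → ZMod m} {s I i : ℕ} {u : V} (H : Vx c s I i u) {w : V}
    (hw : w ∈ cla c u 1) : PP c u (yv c u) w = QQ s i c u w := by
  have h3 := H.m3
  have hc1 := H.c1
  have hap : ap m u (yv c u) - m = (i : ℤ) - 2 * s := by
    unfold ap
    rw [HH_ex, exH_ex]
    have h4 : ((cla c u 1).card : ℤ) + i = 2 * s := by exact_mod_cast hc1
    linarith
  have hne := z_ne_o H
  have hw1 := mem_cla.1 hw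
  unfold PP QQ
  rw [LL_ex H.toSt H.ex, hap]
  refine Finset.filter_congr (fun x hx => ?_)
  have hx1 := mem_cla.1 hx
  have hxw : x ≠ w := by
    intro h4
    rw [h4] at hx1
    exact hne (hx1.2.symm.trans hw1.2)
  have h1 : yv c u x = 0 := by
    unfold yv
    rw [hx1.2, if_neg hne]
  have h2 := dl_win H hw1.1 (w := x) (mem_XX.2 ⟨hx1.1, hxw⟩)
  unfold dl at h2
  rw [h1, sub_zero] at h2
  have h5 : rep ((i : ℤ) - 2 * s) (c w x) = tt s i c u w x := by
    apply rep_unique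
    · exact tt_cast s i c u w x
    · omega
    · omega
  rw [h5]

private theorem ex_hyp {c : V → V → ZMod m} {s I i : ℕ} {u : V} (H : Vx c s I i u) :
    exL u (yv c u) + 2 ≤ (s : ℤ) ∧ exH u (yv c u) + 2 ≤ (s : ℤ) := by
  have h5 := H.s5
  rw [exL_ex, exH_ex]
  constructor <;> omega

private theorem df_zero {c : V → V → ZMod m} {s I i : ℕ} {u : V} (H : Vx c s I i u) {x : V}
    (hx : x ∈ cla c u 0) : df s i c u x = ((UU c u (yv c u) x).card : ℤ) - s := by
  unfold df
  rw [(mem_cla.1 hx).2, if_neg (z_ne_o H), UU_eq H hx]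

private theorem df_one [NeZero m] {c : V → V → ZMod m} {s I i : ℕ} {u : V} (H : Vx c s I i u) {x : V}
    (hx : x ∈ cla c u 1) : df s i c u x = ((PP c u (yv c u) x).card : ℤ) - s := by
  unfold df
  rw [(mem_cla.1 hx).2, if_pos rfl, PP_eq H hx]

theorem df_nonneg [NeZero m] {c : V → V → ZMod m} {s I i : ℕ} {u : V} (H : Vx c s I i u) {x : V}
    (hx : x ≠ u) : 0 ≤ df s i c u x := by
  obtain ⟨hL, hH⟩ := ex_hyp H
  rcases H.ex x hx with h1 | h1
  · have h2 : x ∈ cla c u 0 := mem_cla.2 ⟨hx, h1⟩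
    have h3 := goodL H.sym H.zsf (sl_ex H.toSt H.ex) H.card hL hH (nume H.toSt) (x := x)
      (by rw [LL_ex H.toSt H.ex]; exact h2)
    rw [exL_ex] at h3
    rw [df_zero H h2]
    linarith
  · have h2 : x ∈ cla c u 1 := mem_cla.2 ⟨hx, h1⟩
    have h3 := goodH H.sym H.zsf (sl_ex H.toSt H.ex) H.card hL hH (nume H.toSt) (w := x)
      (by rw [HH_ex]; exact h2)
    rw [exH_ex] at h3
    rw [df_one H h2]
    linarith

theorem df_sum [NeZero m] {c : V → V → ZMod m} {s I i : ℕ} {u : V} (H : Vx c s I i u) :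
    ∑ x ∈ univ.erase u, df s i c u x + i * (i + 1) ≤ s := by
  obtain ⟨hL, hH⟩ := ex_hyp H
  have hne := z_ne_o H
  have h5 := H.s5
  have hd := dc0 H.sym H.zsf (sl_ex H.toSt H.ex) H.card hL hH (by
    rw [exL_ex, exH_ex]
    omega)
  rw [LL_ex H.toSt H.ex, HH_ex] at hd
  have hun : (univ : Finset V).erase u = cla c u 0 ∪ cla c u 1 := by
    ext w
    rw [mem_union, mem_cla, mem_cla, mem_erase]
    constructor
    · rintro ⟨h1, -⟩
      rcases H.ex w h1 with h2 | h2
      · exact Or.inl ⟨h1, h2⟩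
      · exact Or.inr ⟨h1, h2⟩
    · rintro (h1 | h1)
      · exact ⟨h1.1, mem_univ _⟩
      · exact ⟨h1.1, mem_univ _⟩
  have hdis : Disjoint (cla c u 0) (cla c u 1) := by
    rw [Finset.disjoint_left]
    intro w h1 h2
    exact hne ((mem_cla.1 h1).2.symm.trans (mem_cla.1 h2).2)
  have e0 : ((cla c u 0).card : ℤ) = 2 * s + 1 + i := by exact_mod_cast H.c0
  have e1 : ((cla c u 1).card : ℤ) = 2 * s - i := by
    have h4 : ((cla c u 1).card : ℤ) + i = 2 * s := by exact_mod_cast H.c1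
    linarith
  have s0 : ∑ x ∈ cla c u 0, df s i c u x =
      ∑ x ∈ cla c u 0, ((UU c u (yv c u) x).card : ℤ) - (2 * s + 1 + i) * s := by
    rw [Finset.sum_congr rfl (fun x hx => df_zero H hx), Finset.sum_sub_distrib, Finset.sum_const,
      nsmul_eq_mul, e0]
  have s1 : ∑ x ∈ cla c u 1, df s i c u x =
      ∑ x ∈ cla c u 1, ((PP c u (yv c u) x).card : ℤ) - (2 * s - i) * s := by
    rw [Finset.sum_congr rfl (fun x hx => df_one H hx), Finset.sum_sub_distrib, Finset.sum_const,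
      nsmul_eq_mul, e1]
  rw [e0, e1] at hd
  rw [hun, Finset.sum_union hdis, s0, s1]
  nlinarith

theorem df_le [NeZero m] {c : V → V → ZMod m} {s I i : ℕ} {u : V} (H : Vx c s I i u) {x : V}
    (hx : x ≠ u) : df s i c u x + i * (i + 1) ≤ s := by
  have h1 := df_sum H
  have h2 : df s i c u x ≤ ∑ x ∈ univ.erase u, df s i c u x :=
    Finset.single_le_sum (f := fun x => df s i c u x)
      (fun w hw => df_nonneg H (ne_of_mem_erase hw)) (mem_erase.2 ⟨hx, mem_univ _⟩)
  linarith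

end X1
end ZS44129
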