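import Mathlib
import Pool.Agent.Work.MP_44129c_co.X1.Base

/-!
# MP_44129c_co/X1, ExSl (size S-M): a star with a lift of small excess is exact

PROOF of `ex_of_sl`.  `a = exL`, `b = exH`, `l = |LL|`, `h = |HH|`, `l + h = 4 s + 1` (`card_LH`), `a + s ≤ h`, `b + s ≤ l` (`exL_le`, `exH_le`, E/Basic).
`goodman_star` (E/Goodman; `nume`): `4 (l (s + a) + h (s + b)) ≤ 4 l h + a b`.  Suppose `a ≥ 1`.  `a b ≤ a l`, so `3 l a + 4 h b + 4 s (4 s + 1) ≤ 4 l h`;
`4 l h ≤ (4 s + 1)² - 1` hence `3 l ≤ 4 s`; then `l h = l (4 s + 1 - l) ≤ s (4 s + 1)` is a contradiction: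
`s (4 s + 1) - l h = (s - l)(4 s + 1) + l² `, with `l ≤ 4 s / 3` it is positive (`l h` is increasing in `l` for `l ≤ 2 s`:
`9 l h ≤ 4 s (8 s + 3) < 9 s (4 s + 1)`).  The case `b ≥ 1` is symmetric.  So `a = b = 0`: all values are `0` or `1`
(`sum_eq_zero_iff_of_nonneg`), and `cast`.
-/

set_option autoImplicit false

namespace ZS44129
namespace X1

open Finset E

variable {V : Type} [Fintype V] [DecidableEq V] {m : ℕ}

private theorem key {l h a b s : ℤ} (hs : 1 ≤ s) (hlh : l + h = 4 * s + 1) (ha : 0 ≤ a)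
    (hb : 0 ≤ b) (hal : a + s ≤ h) (hbl : b + s ≤ l)
    (hg : 4 * (l * (s + a) + h * (s + b)) ≤ 4 * (l * h) + a * b) : a ≤ 0 := by
  by_contra hcon
  have ha1 : 1 ≤ a := by omega
  have hl : 0 ≤ l := by linarith
  have hh : 0 ≤ h := by linarith
  have e1 : a * b ≤ a * l := mul_le_mul_of_nonneg_left (by linarith) ha
  have e0 : 0 ≤ h * b := mul_nonneg hh hb
  have hS : 4 * ((l + h) * s) = 4 * s * (4 * s + 1) := by rw [hlh]; ring
  have e2 : 3 * (l * a) + 4 * s * (4 * s + 1) ≤ 4 * (l * h) := by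
    rw [← hS]
    linarith
  have e3 : 4 * (l * h) + 1 ≤ (4 * s + 1) ^ 2 := by
    have h1 : l - h ≠ 0 := by omega
    have h2 : 1 ≤ (l - h) ^ 2 := by
      have h3 : 0 < (l - h) ^ 2 := by positivity
      linarith
    have h4 : (4 * s + 1) ^ 2 = 4 * (l * h) + (l - h) ^ 2 := by rw [← hlh]; ring
    linarith
  have e4 : l ≤ l * a := by nlinarith
  have e5 : 3 * l ≤ 4 * s := by nlinarith
  have e6 : 0 ≤ (4 * s - 3 * l) * s := mul_nonneg (by linarith) (by linarith)
  have hh2 : h = 4 * s + 1 - l := by linarith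
  rw [hh2] at e2
  have e7 : 0 ≤ l * a := by linarith
  nlinarith [sq_nonneg (4 * s - 3 * l)]

theorem ex_of_sl [NeZero m] {c : V → V → ZMod m} {s I : ℕ} (h : St c s I) {x : V} {t : V → ℤ}
    (ht : SL c x t) (hL : exL x t + 2 ≤ s) (hH : exH x t + 2 ≤ s) : Ex c x := by
  have hs5 := h.s5
  have hm3 := h.m3
  have hs1 : (1 : ℤ) ≤ s := by omega
  have hg := goodman_star h.sym h.zsf ht h.card hL hH (nume h)
  have ha := exL_nonneg x t
  have hb := exH_nonneg x t
  have hal := exL_le ht h.card hH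
  have hbl := exH_le ht h.card hL
  have hc := card_LH h.card (by omega) x t
  have hc2 : ((LL x t).card : ℤ) + (HH x t).card = 4 * s + 1 := by
    have h1 : (LL x t).card + (HH x t).card = 4 * s + 1 := by omega
    exact_mod_cast h1
  have ha0 : exL x t ≤ 0 := key hs1 hc2 ha hb (by linarith) (by linarith) hg
  have hb0 : exH x t ≤ 0 := by
    refine key hs1 (l := ((HH x t).card : ℤ)) (h := ((LL x t).card : ℤ)) (b := exL x t)
      (by linarith) hb ha (by linarith) (by linarith) ?_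
    linarith
  have ha1 : exL x t = 0 := le_antisymm ha0 ha
  have hb1 : exH x t = 0 := le_antisymm hb0 hb
  intro w hw
  rw [← ht.cast w hw]
  rcases le_or_gt (t w) 0 with h1 | h1
  · have hmem : w ∈ LL x t := mem_LL.2 ⟨hw, h1⟩
    unfold exL at ha1
    have h2 := (Finset.sum_eq_zero_iff_of_nonneg (fun v hv => by
      have := (mem_LL.1 hv).2
      omega)).1 ha1 w hmem
    left
    have h3 : t w = 0 := by omega
    rw [h3, Int.cast_zero]
  · have hmem : w ∈ HH x t := mem_HH.2 ⟨hw, h1⟩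
    unfold exH at hb1
    have h2 := (Finset.sum_eq_zero_iff_of_nonneg (fun v hv => by
      have := (mem_HH.1 hv).2
      omega)).1 hb1 w hmem
    right
    have h3 : t w = 1 := by omega
    rw [h3, Int.cast_one]

end X1
end ZS44129
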