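import Mathlib
import Pool.Agent.Work.MP_44129c_co.N.PLift
import Pool.Agent.Work.MP_44129c_co.X1.Defs

/-!
# MP_44129c_co/X1, Pair0 (size M): a lifted pair `u x`, the star of `u` has the values `0`, `1`

`X = XX u x` has `m + s - 2` elements.  First part: `z0 = 0`.
PROOF of `pair0_exL`.  `R = {w ∈ X : y w = 1, 1 ≤ t w}`.  For every `w ∈ X \ R`: `min (y w) (t w) = - max (- t w) 0` (also `0` on `R` for the right
side).  If `|R| ≤ s - 1`: choose `m - 1` elements of `X \ R`, each on the side where the minimum is: the sum is `≤ 0`, contradiction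
to `gap`.  So `|R| ≥ s`; choose `Q ⊆ R`, `|Q| = s - 1`; `X \ Q` has `m - 1` elements, each on its smaller side: the sum is
`(|R| - (s - 1)) - ∑_X max (- t) 0 ≥ 1`.
PROOF of `pair0_exH`.  `U = {w ∈ X : y w = 1 ∨ 1 ≤ t w}`, `|U| ≤ m - 1 ≤ |X|`; choose `D`, `U ⊆ D ⊆ X`, `|D| = m - 1`, each element on its larger
side: `max (y w) (t w) = 1 + max (t w - 1) 0` on `U`, `= 0` on `D \ U`, and `max (t w - 1) 0 = 0` off `U`.  The sum is
`|U| + ∑_X max (t - 1) 0 ≤ m - 1`.
PROOF of `pair0_exH0`.  If `t w ≥ 2` for some `w ∈ X` then `w ∈ U`; choose `D ⊆ U`, `w ∈ D`, `|D| = m - 1` (`≥ 1`), larger sides: the sum is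
`≥ (m - 2) + 2 = m`: contradiction.
(A set `D` with sides: `A` = the elements of `D` on the side of `u`, `B` = the others.)
Second part (`z0 = 1`): apply the first part to `plift_refl` (N/PLift): `1 - c`, `1 - y`, `1 - t`.
-/

set_option autoImplicit false

namespace ZS44129
namespace X1

open Finset E N

variable {V : Type} [Fintype V] [DecidableEq V] {m : ℕ}

private theorem p0_cardX {s : ℕ} (hV : Fintype.card V = m + s) {u x : V} (hx : u ≠ x) :
    (XX u x).card + 2 = m + s := by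
  have h1 : ((univ : Finset V).erase u).card + 1 = Fintype.card V := by
    rw [card_erase_add_one (mem_univ u), card_univ]
  have h2 : (((univ : Finset V).erase u).erase x).card + 1 = ((univ : Finset V).erase u).card :=
    card_erase_add_one (mem_erase.2 ⟨hx.symm, mem_univ x⟩)
  unfold XX
  omega

private theorem p0_min {c : V → V → ZMod m} {u x : V} {z0 : ℤ} {y t : V → ℤ}
    (h : PLift c u x z0 y t) (D : Finset V) (hD : D ⊆ XX u x) (hc : D.card + 1 = m) :
    1 ≤ z0 + ∑ w ∈ D, min (y w) (t w) := by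
  have hd : Disjoint (D.filter (fun w => y w ≤ t w)) (D.filter (fun w => ¬ y w ≤ t w)) :=
    disjoint_filter_filter_not _ _ _
  have hcc : (D.filter (fun w => y w ≤ t w)).card + (D.filter (fun w => ¬ y w ≤ t w)).card = D.card :=
    card_filter_add_card_filter_not _
  have h1 := (h.gap (D.filter (fun w => y w ≤ t w)) (D.filter (fun w => ¬ y w ≤ t w))
    ((filter_subset _ _).trans hD) ((filter_subset _ _).trans hD) hd (by omega)).1
  have e1 : ∑ w ∈ D.filter (fun w => y w ≤ t w), y w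
      = ∑ w ∈ D.filter (fun w => y w ≤ t w), min (y w) (t w) :=
    sum_congr rfl (fun w hw => (min_eq_left (mem_filter.1 hw).2).symm)
  have e2 : ∑ w ∈ D.filter (fun w => ¬ y w ≤ t w), t w
      = ∑ w ∈ D.filter (fun w => ¬ y w ≤ t w), min (y w) (t w) :=
    sum_congr rfl (fun w hw => (min_eq_right (le_of_lt (not_le.1 (mem_filter.1 hw).2))).symm)
  have e3 : ∑ w ∈ D.filter (fun w => y w ≤ t w), min (y w) (t w)
      + ∑ w ∈ D.filter (fun w => ¬ y w ≤ t w), min (y w) (t w) = ∑ w ∈ D, min (y w) (t w) :=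
    sum_filter_add_sum_filter_not D _ _
  rw [e1, e2] at h1
  linarith

private theorem p0_max {c : V → V → ZMod m} {u x : V} {z0 : ℤ} {y t : V → ℤ}
    (h : PLift c u x z0 y t) (D : Finset V) (hD : D ⊆ XX u x) (hc : D.card + 1 = m) :
    z0 + ∑ w ∈ D, max (y w) (t w) ≤ m - 1 := by
  have hd : Disjoint (D.filter (fun w => t w ≤ y w)) (D.filter (fun w => ¬ t w ≤ y w)) :=
    disjoint_filter_filter_not _ _ _
  have hcc : (D.filter (fun w => t w ≤ y w)).card + (D.filter (fun w => ¬ t w ≤ y w)).card = D.card :=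
    card_filter_add_card_filter_not _
  have h1 := (h.gap (D.filter (fun w => t w ≤ y w)) (D.filter (fun w => ¬ t w ≤ y w))
    ((filter_subset _ _).trans hD) ((filter_subset _ _).trans hD) hd (by omega)).2
  have e1 : ∑ w ∈ D.filter (fun w => t w ≤ y w), y w
      = ∑ w ∈ D.filter (fun w => t w ≤ y w), max (y w) (t w) :=
    sum_congr rfl (fun w hw => (max_eq_left (mem_filter.1 hw).2).symm)
  have e2 : ∑ w ∈ D.filter (fun w => ¬ t w ≤ y w), t w
      = ∑ w ∈ D.filter (fun w => ¬ t w ≤ y w), max (y w) (t w) :=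
    sum_congr rfl (fun w hw => (max_eq_right (le_of_lt (not_le.1 (mem_filter.1 hw).2))).symm)
  have e3 : ∑ w ∈ D.filter (fun w => t w ≤ y w), max (y w) (t w)
      + ∑ w ∈ D.filter (fun w => ¬ t w ≤ y w), max (y w) (t w) = ∑ w ∈ D, max (y w) (t w) :=
    sum_filter_add_sum_filter_not D _ _
  rw [e1, e2] at h1
  linarith

private theorem p0_refl {c : V → V → ZMod m} {u x : V} {y t : V → ℤ} (h : PLift c u x 1 y t) :
    PLift (fun p q => 1 - c p q) u x 0 (fun w => 1 - y w) (fun w => 1 - t w) := by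
  have h1 := plift_refl h
  rwa [sub_self] at h1

theorem pair0_exL {c : V → V → ZMod m} {u x : V} {y t : V → ℤ} (h : PLift c u x 0 y t) {s : ℕ}
    (hV : Fintype.card V = m + s) (hs : 1 ≤ s) (hm : 2 ≤ m)
    (hy : ∀ w ∈ XX u x, y w = 0 ∨ y w = 1) :
    ∑ w ∈ XX u x, max (-(t w)) 0 + s ≤
      ((XX u x).filter (fun w => y w = 1 ∧ 1 ≤ t w)).card := by
  have hX := p0_cardX hV h.ne
  have hR : (XX u x).filter (fun w => y w = 1 ∧ 1 ≤ t w) ⊆ XX u x := filter_subset _ _
  have key : ∀ w ∈ XX u x, min (y w) (t w)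
      = (if y w = 1 ∧ 1 ≤ t w then 1 else 0) - max (-(t w)) 0 := by
    intro w hw
    rcases hy w hw with h0 | h0 <;> rw [h0] <;> split_ifs with h1 <;> omega
  have hge : s ≤ ((XX u x).filter (fun w => y w = 1 ∧ 1 ≤ t w)).card := by
    by_contra hlt
    have h1 := card_sdiff_add_card_eq_card hR
    obtain ⟨D, hD, hDc⟩ := exists_subset_card_eq
      (s := XX u x \ (XX u x).filter (fun w => y w = 1 ∧ 1 ≤ t w)) (n := m - 1) (by omega)
    have h2 := p0_min h D (hD.trans sdiff_subset) (by omega)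
    have h3 : ∑ w ∈ D, min (y w) (t w) ≤ 0 := by
      apply sum_nonpos
      intro w hw
      have h4 := mem_sdiff.1 (hD hw)
      have h5 : ¬ (y w = 1 ∧ 1 ≤ t w) := fun h6 => h4.2 (mem_filter.2 ⟨h4.1, h6⟩)
      rw [key w h4.1, if_neg h5]
      have h6 := le_max_right (-(t w)) 0
      linarith
    linarith
  obtain ⟨Q, hQ, hQc⟩ := exists_subset_card_eq
    (s := (XX u x).filter (fun w => y w = 1 ∧ 1 ≤ t w)) (n := s - 1) (by omega)
  have hQX : Q ⊆ XX u x := hQ.trans hR
  have h1 := card_sdiff_add_card_eq_card hQX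
  have h2 := p0_min h (XX u x \ Q) sdiff_subset (by omega)
  have h3 : ∑ w ∈ XX u x \ Q, min (y w) (t w) + ∑ w ∈ Q, min (y w) (t w)
      = ∑ w ∈ XX u x, min (y w) (t w) := sum_sdiff hQX
  have h4 : ∑ w ∈ Q, min (y w) (t w) = (Q.card : ℤ) := by
    rw [card_eq_sum_ones]
    push_cast
    apply sum_congr rfl
    intro w hw
    have h5 := (mem_filter.1 (hQ hw)).2
    rw [h5.1]
    exact min_eq_left h5.2
  have h5 : ∑ w ∈ XX u x, min (y w) (t w)
      = (((XX u x).filter (fun w => y w = 1 ∧ 1 ≤ t w)).card : ℤ) - ∑ w ∈ XX u x, max (-(t w)) 0 := by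
    rw [sum_congr rfl key, sum_sub_distrib, sum_boole]
  have h6 : (Q.card : ℤ) = s - 1 := by
    rw [hQc]
    push_cast [hs]
    ring
  linarith

theorem pair0_exH {c : V → V → ZMod m} {u x : V} {y t : V → ℤ} (h : PLift c u x 0 y t) {s : ℕ}
    (hV : Fintype.card V = m + s) (hs : 1 ≤ s) (hm : 2 ≤ m)
    (hy : ∀ w ∈ XX u x, y w = 0 ∨ y w = 1)
    (hU : ((XX u x).filter (fun w => y w = 1 ∨ 1 ≤ t w)).card + 1 ≤ m) :
    ∑ w ∈ XX u x, max (t w - 1) 0 +
      ((XX u x).filter (fun w => y w = 1 ∨ 1 ≤ t w)).card + 1 ≤ m := by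
  have hX := p0_cardX hV h.ne
  have hR : (XX u x).filter (fun w => y w = 1 ∨ 1 ≤ t w) ⊆ XX u x := filter_subset _ _
  have key : ∀ w ∈ XX u x, max (y w) (t w)
      = (if y w = 1 ∨ 1 ≤ t w then 1 else 0) + max (t w - 1) 0 := by
    intro w hw
    rcases hy w hw with h0 | h0 <;> rw [h0] <;> split_ifs with h1 <;> omega
  obtain ⟨D, hUD, hDX, hDc⟩ := exists_subsuperset_card_eq hR (n := m - 1) (by omega) (by omega)
  have h2 := p0_max h D hDX (by omega)
  have h3 : ∑ w ∈ D, max (y w) (t w)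
      = (((XX u x).filter (fun w => y w = 1 ∨ 1 ≤ t w)).card : ℤ) + ∑ w ∈ D, max (t w - 1) 0 := by
    rw [sum_congr rfl (fun w hw => key w (hDX hw)), sum_add_distrib, sum_boole]
    congr 2
    congr 1
    ext w
    constructor
    · intro hw
      exact mem_filter.2 ⟨hDX (mem_filter.1 hw).1, (mem_filter.1 hw).2⟩
    · intro hw
      exact mem_filter.2 ⟨hUD hw, (mem_filter.1 hw).2⟩
  have h4 : ∑ w ∈ D, max (t w - 1) 0 = ∑ w ∈ XX u x, max (t w - 1) 0 := by
    apply sum_subset hDX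
    intro w hw hwD
    have h5 : ¬ (y w = 1 ∨ 1 ≤ t w) := fun h6 => hwD (hUD (mem_filter.2 ⟨hw, h6⟩))
    push Not at h5
    apply max_eq_right
    linarith [h5.2]
  have h5 : ((m : ℤ) - 1) - 0 ≥ ∑ w ∈ XX u x, max (t w - 1) 0
      + (((XX u x).filter (fun w => y w = 1 ∨ 1 ≤ t w)).card : ℤ) := by
    linarith
  linarith

theorem pair0_exH0 {c : V → V → ZMod m} {u x : V} {y t : V → ℤ} (h : PLift c u x 0 y t) {s : ℕ}
    (hV : Fintype.card V = m + s) (hs : 1 ≤ s) (hm : 2 ≤ m)
    (hy : ∀ w ∈ XX u x, y w = 0 ∨ y w = 1)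
    (hU : m ≤ ((XX u x).filter (fun w => y w = 1 ∨ 1 ≤ t w)).card + 1) :
    ∀ w ∈ XX u x, t w ≤ 1 := by
  have hR : (XX u x).filter (fun w => y w = 1 ∨ 1 ≤ t w) ⊆ XX u x := filter_subset _ _
  intro w hw
  by_contra hlt
  push Not at hlt
  have hwU : w ∈ (XX u x).filter (fun w => y w = 1 ∨ 1 ≤ t w) :=
    mem_filter.2 ⟨hw, Or.inr (by omega)⟩
  obtain ⟨D, hUD, hDX, hDc⟩ := exists_subsuperset_card_eq (singleton_subset_iff.2 hwU)
    (n := m - 1) (by rw [card_singleton]; omega) (by omega)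
  have hwD : w ∈ D := hUD (mem_singleton_self w)
  have h2 := p0_max h D (hDX.trans hR) (by omega)
  have h3 : ∑ v ∈ D, ((1 : ℤ) + if v = w then 1 else 0) ≤ ∑ v ∈ D, max (y v) (t v) := by
    apply sum_le_sum
    intro v hv
    by_cases hvw : v = w
    · rw [if_pos hvw, hvw]
      have := le_max_right (y w) (t w)
      linarith
    · rw [if_neg hvw]
      rcases (mem_filter.1 (hDX hv)).2 with h4 | h4
      · have := le_max_left (y v) (t v)
        linarith
      · have := le_max_right (y v) (t v)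
        linarith
  rw [sum_add_distrib, sum_const, sum_ite_eq' D w, if_pos hwD, hDc, nsmul_eq_mul] at h3
  have h4 : ((m - 1 : ℕ) : ℤ) = m - 1 := by
    rw [Nat.cast_sub (by omega)]
    simp
  rw [h4] at h3
  linarith

theorem pair1_exH {c : V → V → ZMod m} {u x : V} {y t : V → ℤ} (h : PLift c u x 1 y t) {s : ℕ}
    (hV : Fintype.card V = m + s) (hs : 1 ≤ s) (hm : 2 ≤ m)
    (hy : ∀ w ∈ XX u x, y w = 0 ∨ y w = 1) :
    ∑ w ∈ XX u x, max (t w - 1) 0 + s ≤
      ((XX u x).filter (fun w => y w = 0 ∧ t w ≤ 0)).card := by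
  have h1 := pair0_exL (p0_refl h) hV hs hm (fun w hw => by
    rcases hy w hw with h0 | h0
    · right
      rw [h0]
      norm_num
    · left
      rw [h0]
      norm_num)
  have h2 : ∑ w ∈ XX u x, max (-(1 - t w)) 0 = ∑ w ∈ XX u x, max (t w - 1) 0 :=
    sum_congr rfl (fun w _ => by rw [neg_sub])
  have h3 : (XX u x).filter (fun w => 1 - y w = 1 ∧ 1 ≤ 1 - t w)
      = (XX u x).filter (fun w => y w = 0 ∧ t w ≤ 0) :=
    filter_congr (fun w _ => by
      constructor <;> intro h4 <;> constructor <;> linarith [h4.1, h4.2])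
  rw [h2, h3] at h1
  exact h1

theorem pair1_exL {c : V → V → ZMod m} {u x : V} {y t : V → ℤ} (h : PLift c u x 1 y t) {s : ℕ}
    (hV : Fintype.card V = m + s) (hs : 1 ≤ s) (hm : 2 ≤ m)
    (hy : ∀ w ∈ XX u x, y w = 0 ∨ y w = 1)
    (hU : ((XX u x).filter (fun w => y w = 0 ∨ t w ≤ 0)).card + 1 ≤ m) :
    ∑ w ∈ XX u x, max (-(t w)) 0 +
      ((XX u x).filter (fun w => y w = 0 ∨ t w ≤ 0)).card + 1 ≤ m := by
  have h3 : (XX u x).filter (fun w => 1 - y w = 1 ∨ 1 ≤ 1 - t w)
      = (XX u x).filter (fun w => y w = 0 ∨ t w ≤ 0) :=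
    filter_congr (fun w _ => by
      constructor
      · rintro (h4 | h4)
        · left
          linarith
        · right
          linarith
      · rintro (h4 | h4)
        · left
          linarith
        · right
          linarith)
  have h1 := pair0_exH (p0_refl h) hV hs hm (fun w hw => by
    rcases hy w hw with h0 | h0
    · right
      rw [h0]
      norm_num
    · left
      rw [h0]
      norm_num) (by rw [h3]; exact hU)
  have h2 : ∑ w ∈ XX u x, max (1 - t w - 1) 0 = ∑ w ∈ XX u x, max (-(t w)) 0 :=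
    sum_congr rfl (fun w _ => by rw [show 1 - t w - 1 = -(t w) by ring])
  rw [h2, h3] at h1
  exact h1

theorem pair1_exL0 {c : V → V → ZMod m} {u x : V} {y t : V → ℤ} (h : PLift c u x 1 y t) {s : ℕ}
    (hV : Fintype.card V = m + s) (hs : 1 ≤ s) (hm : 2 ≤ m)
    (hy : ∀ w ∈ XX u x, y w = 0 ∨ y w = 1)
    (hU : m ≤ ((XX u x).filter (fun w => y w = 0 ∨ t w ≤ 0)).card + 1) :
    ∀ w ∈ XX u x, 0 ≤ t w := by
  have h3 : (XX u x).filter (fun w => 1 - y w = 1 ∨ 1 ≤ 1 - t w)
      = (XX u x).filter (fun w => y w = 0 ∨ t w ≤ 0) :=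
    filter_congr (fun w _ => by
      constructor
      · rintro (h4 | h4)
        · left
          linarith
        · right
          linarith
      · rintro (h4 | h4)
        · left
          linarith
        · right
          linarith)
  have h1 := pair0_exH0 (p0_refl h) hV hs hm (fun w hw => by
    rcases hy w hw with h0 | h0
    · right
      rw [h0]
      norm_num
    · left
      rw [h0]
      norm_num) (by rw [h3]; exact hU)
  intro w hw
  have h2 := h1 w hw
  linarith

end X1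
end ZS44129
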