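import Mathlib
import Pool.Agent.Work.MP_44129c_co.N.PLift
import Pool.Agent.Work.MP_44129c_co.X1.Defs

/-!
# MP_44129c_co/X1, SLP (size S-M): the star of the second vertex of a lifted pair

`TT u z0 t` = the values of the star of `x`: `z0` at `u`, `t w` at `w ≠ u`.
PROOF of `sl_plift`.  `cast`: `c x u = c u x = z0`.  `rng`: let `A ⊆ univ.erase x`, `|A| = m`.  If `u ∈ A`: `gap` with `A = ∅`, `B = A \ {u}`.  If `u ∉ A`: `A ⊆ X`;
by `h1` some `a ∈ A` has `t a ≥ z0`, by `h2` some `a' ∈ A` has `t a' ≤ z0`; `∑_A t = t a - z0 + (z0 + ∑_{A \ {a}} t) ≥ 1` by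
`gap` (`A = ∅`, `B = A \ {a}`), in the same way `≤ m - 1` with `a'`.
`exL_TT`, `exH_TT`: `univ.erase x` is `insert u (XX u x)`; the value at `u` does not contribute.
-/

set_option autoImplicit false

namespace ZS44129
namespace X1

open Finset E N

variable {V : Type} [Fintype V] [DecidableEq V] {m : ℕ}

/-- the values of the star of `x`. -/
def TT (u : V) (z0 : ℤ) (t : V → ℤ) (w : V) : ℤ := if w = u then z0 else t w

private theorem erase_eq {u x : V} (hx : x ≠ u) : (univ : Finset V).erase x = insert u (XX u x) := by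
  ext w
  rw [mem_insert, mem_XX, mem_erase]
  constructor
  · rintro ⟨h1, -⟩
    by_cases h : w = u
    · exact Or.inl h
    · exact Or.inr ⟨h, h1⟩
  · rintro (h | h)
    · rw [h]
      exact ⟨hx.symm, mem_univ _⟩
    · exact ⟨h.2, mem_univ _⟩

private theorem not_mem_XX {u x : V} : u ∉ XX u x := by
  rw [mem_XX]
  exact fun h => h.1 rfl

theorem sl_plift {c : V → V → ZMod m} (hsym : ∀ p q, c p q = c q p) {u x : V} {z0 : ℤ}
    {al t : V → ℤ} (h : PLift c u x z0 al t) (hm : 1 ≤ m)
    (h1 : ((XX u x).filter (fun w => t w < z0)).card + 1 ≤ m)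
    (h2 : ((XX u x).filter (fun w => z0 < t w)).card + 1 ≤ m) : SL c x (TT u z0 t) := by
  constructor
  · intro w hw
    unfold TT
    by_cases h3 : w = u
    · rw [if_pos h3, h3, h.h0]
      exact hsym u x
    · rw [if_neg h3]
      exact h.hx w h3 hw
  · intro A hA hcard
    by_cases hu : u ∈ A
    · have hs : ∑ w ∈ A, TT u z0 t w = z0 + ∑ w ∈ A.erase u, t w := by
        rw [← add_sum_erase A _ hu]
        congr 1
        · simp [TT]
        · refine sum_congr rfl (fun w hw => ?_)
          unfold TT
          rw [if_neg (ne_of_mem_erase hw)]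
      have hsub : A.erase u ⊆ XX u x := by
        intro w hw
        rw [mem_XX]
        exact ⟨ne_of_mem_erase hw, ne_of_mem_erase (hA (mem_of_mem_erase hw))⟩
      have hg := h.gap ∅ (A.erase u) (empty_subset _) hsub (disjoint_empty_left _) (by
        rw [card_erase_of_mem hu, hcard, card_empty]
        omega)
      rw [sum_empty, add_zero] at hg
      rw [hs]
      exact hg
    · have hsub : A ⊆ XX u x := by
        intro w hw
        rw [mem_XX]
        refine ⟨?_, ne_of_mem_erase (hA hw)⟩
        intro h3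
        rw [h3] at hw
        exact hu hw
      have hs : ∑ w ∈ A, TT u z0 t w = ∑ w ∈ A, t w := by
        refine sum_congr rfl (fun w hw => ?_)
        unfold TT
        rw [if_neg (mem_XX.1 (hsub hw)).1]
      have hgap : ∀ a ∈ A, 1 ≤ z0 + ∑ w ∈ A.erase a, t w ∧
          z0 + ∑ w ∈ A.erase a, t w ≤ m - 1 := by
        intro a ha
        have hg := h.gap ∅ (A.erase a) (empty_subset _) ((erase_subset _ _).trans hsub)
          (disjoint_empty_left _) (by
            rw [card_erase_of_mem ha, hcard, card_empty]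
            omega)
        rw [sum_empty, add_zero] at hg
        exact hg
      rw [hs]
      constructor
      · obtain ⟨a, ha, h3⟩ : ∃ a ∈ A, z0 ≤ t a := by
          by_contra hc
          push Not at hc
          have h4 : A ⊆ (XX u x).filter (fun w => t w < z0) := fun w hw =>
            mem_filter.2 ⟨hsub hw, hc w hw⟩
          have h5 := card_le_card h4
          omega
        have h4 := (hgap a ha).1
        rw [← add_sum_erase A _ ha]
        linarith
      · obtain ⟨a, ha, h3⟩ : ∃ a ∈ A, t a ≤ z0 := by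
          by_contra hc
          push Not at hc
          have h4 : A ⊆ (XX u x).filter (fun w => z0 < t w) := fun w hw =>
            mem_filter.2 ⟨hsub hw, hc w hw⟩
          have h5 := card_le_card h4
          omega
        have h4 := (hgap a ha).2
        rw [← add_sum_erase A _ ha]
        linarith

theorem exL_TT {u x : V} (hx : x ≠ u) (z0 : ℤ) (t : V → ℤ) (h0 : 0 ≤ z0) :
    exL x (TT u z0 t) = ∑ w ∈ XX u x, max (-(t w)) 0 := by
  unfold exL LL
  rw [sum_filter]
  have h1 : ∀ w ∈ (univ : Finset V).erase x,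
      (if TT u z0 t w ≤ 0 then -TT u z0 t w else 0) = max (-(TT u z0 t w)) 0 := by
    intro w _
    by_cases h : TT u z0 t w ≤ 0
    · rw [if_pos h, max_eq_left (by linarith)]
    · rw [if_neg h, max_eq_right (by linarith)]
  rw [sum_congr rfl h1, erase_eq hx, sum_insert not_mem_XX]
  have h2 : max (-(TT u z0 t u)) 0 = 0 := by
    unfold TT
    rw [if_pos rfl]
    exact max_eq_right (by linarith)
  rw [h2, zero_add]
  refine sum_congr rfl (fun w hw => ?_)
  unfold TT
  rw [if_neg (mem_XX.1 hw).1]

theorem exH_TT {u x : V} (hx : x ≠ u) (z0 : ℤ) (t : V → ℤ) (h0 : z0 ≤ 1) :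
    exH x (TT u z0 t) = ∑ w ∈ XX u x, max (t w - 1) 0 := by
  unfold exH HH
  rw [sum_filter]
  have h1 : ∀ w ∈ (univ : Finset V).erase x,
      (if 1 ≤ TT u z0 t w then TT u z0 t w - 1 else 0) = max (TT u z0 t w - 1) 0 := by
    intro w _
    by_cases h : 1 ≤ TT u z0 t w
    · rw [if_pos h, max_eq_left (by linarith)]
    · rw [if_neg h, max_eq_right (by linarith)]
  rw [sum_congr rfl h1, erase_eq hx, sum_insert not_mem_XX]
  have h2 : max (TT u z0 t u - 1) 0 = 0 := by
    unfold TT
    rw [if_pos rfl]
    exact max_eq_right (by linarith)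
  rw [h2, zero_add]
  refine sum_congr rfl (fun w hw => ?_)
  unfold TT
  rw [if_neg (mem_XX.1 hw).1]

end X1
end ZS44129
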