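import Mathlib
import Pool.Agent.Work.MP_44129c_co.X1.Bud
import Pool.Agent.Work.MP_44129c_co.X1.Pair0
import Pool.Agent.Work.MP_44129c_co.X1.SLP
import Pool.Agent.Work.MP_44129c_co.X1.ExSl

/-!
# MP_44129c_co/X1, High (size M-L): a one `x` of `u` with a lifted pair

PROOF of `high_price`.  `yv c u x = 1`, so the pair is lifted with `z0 = 1`; `y = yv c u` has the values `0`, `1`; `L = cla c u 0 ⊆ X`
(`c u x = 1 ≠ 0`), `|L| = 2 s + 1 + i`, `|X| = 4 s`, `|{w ∈ X : y w = 1}| = 2 s - i - 1`.  `Q = QQ s i c u x = {w ∈ X : y w = 0, t w ≤ 0}`,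
`|Q| = s + d`, `d = df`, `0 ≤ d ≤ s - i (i + 1)`.  `J = {w ∈ X : y w = 1, t w ≤ 0}`, `j = |J|`.  `U = {w ∈ X : y w = 0 ∨ t w ≤ 0} = L ⊔ J`,
`|U| = 2 s + 1 + i + j`.  `a = ∑_X max (- t) 0`, `b = ∑_X max (t - 1) 0`; `T = TT u 1 t`, `a = exL x T`, `b = exH x T` (X1/SLP).
(1) `b ≤ d` (`pair1_exH`).  (2) if `|U| ≤ m - 1`: `a + (2 s + 1 + i) + j ≤ 3 s + 1` (`pair1_exL`).  (3) if `|U| ≥ m - 1`: `a = 0` (`pair1_exL0`).
(4) `{w ∈ X : t w ≤ 0} = Q ⊔ J` has `s + d + j` elements.  (5) `{w ∈ X : 1 < t w}` has `≤ b` elements.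
(6) `{w ∈ X : t w = 1}` has at most `2 s + I` elements: with `u` it is contained in `cla c x 1` (`c x u = 1`, `tt_cast`), `cl`.
So `4 s = |X| ≤ (s + d + j) + b + (2 s + I)`: `s ≤ I + d + j + b ≤ I + 2 d + j`.
(7) `{w ∈ X : t w = 0} ⊆ cla c x 0` has `≤ 2 s + 1 + I` elements.
Case A: `|U| ≥ m`.  `a = 0`, so `s + d + j ≤ 2 s + 1 + I` by (4), (7); `j ≥ m - (2 s + 1 + i) = s + 1 - i`, so `d ≤ I + i ≤ 2 I`, `b ≤ d ≤ s - 2`
(`2 I + 2 ≤ s`: `I ≤ 1`: `s ≥ 5`; `I ≥ 2`: `I (I + 1) ≤ s` and `s ≥ 8` for `I = 2`, `I (I + 1) ≥ 4 I ≥ 2 I + 2`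
for `I ≥ 3`).  `sl_plift` (`b < m`, `s + d + j ≤ 2 s + 1 + I ≤ m - 1`) and `ex_of_sl`: `x` is exact, contradiction.
Case B: `|U| ≤ m - 1`: `a + i + j ≤ s`.  `sl_plift`: `s + d + j ≤ s + s + s ≤ m - 1`, `b ≤ d ≤ s ≤ m - 1`.  As `x` is not exact, `ex_of_sl`
gives `b ≥ s - 1` or `a ≥ s - 1`.  If `b ≥ s - 1`: `d ≥ s - 1`, and `2 d + 1 + I ≥ s + i` (`i ≤ I`, `s ≥ 1`).  If `a ≥ s - 1`:
`i + j ≤ 1`, `s + i ≤ I + 2 d + j + i ≤ 2 d + 1 + I`.
`sg`: `sg = (L \ Q) ⊔ J`, `|sg| = (2 s + 1 + i) - (s + d) + j = s + 1 + i - d + j`.  If `b ≥ s - 1`: `d ≥ s - 1`, `i + j ≤ s`: `≤ s + 2`.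
If `a ≥ s - 1`: `i + j ≤ 1`: `≤ s + 2`.
-/

set_option autoImplicit false

namespace ZS44129
namespace X1

open Finset E N

variable {V : Type} [Fintype V] [DecidableEq V] {m : ℕ}

theorem high_price [NeZero m] {c : V → V → ZMod m} {s I i : ℕ} {u : V} (H : Vx c s I i u) {x : V}
    (hxu : x ≠ u) (hx : c u x = 1) (hP : PLift c u x (yv c u x) (yv c u) (tt s i c u x))
    (hn : ¬ Ex c x) :
    (s : ℤ) + i ≤ 2 * df s i c u x + 1 + I ∧ (sg s i c u x).card ≤ s + 2 := by
  classical
  have hm3 := H.m3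
  have hs5 : 5 ≤ s := by rcases H.s5 with h | h <;> omega
  have hm2 : 2 ≤ m := by omega
  have : Fact (1 < m) := ⟨by omega⟩
  have h01 : (0 : ZMod m) ≠ 1 := zero_ne_one
  have hyx : yv c u x = 1 := by simp [yv, hx]
  rw [hyx] at hP
  have hyall : ∀ w, yv c u w = 0 ∨ yv c u w = 1 := by
    intro w
    unfold yv
    by_cases h : c u w = 1
    · right; rw [if_pos h]
    · left; rw [if_neg h]
  have hy1 : ∀ w, yv c u w = 1 ↔ c u w = 1 := by
    intro w
    unfold yv
    by_cases h : c u w = 1
    · simp [h]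
    · simp [h]
  have hy0 : ∀ w, w ≠ u → (yv c u w = 0 ↔ c u w = 0) := by
    intro w hw
    unfold yv
    rcases H.ex w hw with h | h
    · simp [h, h01]
    · simp [h, h01.symm]
  have hy : ∀ w ∈ XX u x, yv c u w = 0 ∨ yv c u w = 1 := fun w _ => hyall w
  have hcX : (XX u x).card = 4 * s := by
    have := card_XX H.card hxu
    omega
  have hd0 : 0 ≤ df s i c u x := df_nonneg H hxu
  have hd1 : df s i c u x + i * (i + 1) ≤ s := df_le H hxu
  have hQd : ((QQ s i c u x).card : ℤ) = s + df s i c u x := by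
    unfold df
    rw [if_pos hx]
    ring
  set t := tt s i c u x with ht
  set d := df s i c u x with hd
  set Q := QQ s i c u x with hQ
  -- the sets
  have hfQ : (XX u x).filter (fun w => yv c u w = 0 ∧ t w ≤ 0) = Q := by
    ext w
    rw [hQ]
    unfold QQ cla
    simp only [mem_filter, mem_XX, mem_erase, mem_univ, and_true]
    constructor
    · rintro ⟨⟨h1, h2⟩, h3, h4⟩
      exact ⟨⟨h1, (hy0 w h1).1 h3⟩, h4⟩
    · rintro ⟨⟨h1, h3⟩, h4⟩
      refine ⟨⟨h1, ?_⟩, (hy0 w h1).2 h3, h4⟩
      rintro rfl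
      rw [h3] at hx
      exact h01 hx
  have hfL : (XX u x).filter (fun w => yv c u w = 0) = cla c u 0 := by
    ext w
    unfold cla
    simp only [mem_filter, mem_XX, mem_erase, mem_univ, and_true]
    constructor
    · rintro ⟨⟨h1, h2⟩, h3⟩
      exact ⟨h1, (hy0 w h1).1 h3⟩
    · rintro ⟨h1, h3⟩
      refine ⟨⟨h1, ?_⟩, (hy0 w h1).2 h3⟩
      rintro rfl
      rw [h3] at hx
      exact h01 hx
  have hcL : ((XX u x).filter (fun w => yv c u w = 0)).card = 2 * s + 1 + i := by
    rw [hfL, H.c0]
  set J := (XX u x).filter (fun w => yv c u w = 1 ∧ t w ≤ 0) with hJ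
  set U := (XX u x).filter (fun w => yv c u w = 0 ∨ t w ≤ 0) with hU
  have hcU : U.card = 2 * s + 1 + i + J.card := by
    rw [← hcL, hU, hJ, ← card_union_of_disjoint]
    · congr 1
      ext w
      simp only [mem_filter, mem_union]
      constructor
      · rintro ⟨h1, h2⟩
        rcases hyall w with h3 | h3
        · left; exact ⟨h1, h3⟩
        · right
          refine ⟨h1, h3, ?_⟩
          rcases h2 with h2 | h2
          · omega
          · exact h2
      · rintro (⟨h1, h2⟩ | ⟨h1, h2, h3⟩)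
        · exact ⟨h1, Or.inl h2⟩
        · exact ⟨h1, Or.inr h3⟩
    · rw [disjoint_left]
      intro w h1 h2
      simp only [mem_filter] at h1 h2
      omega
  have hc0 : (((XX u x).filter (fun w => t w ≤ 0)).card : ℤ) = s + d + J.card := by
    rw [← hQd, ← hfQ, hJ]
    norm_cast
    rw [← card_union_of_disjoint]
    · congr 1
      ext w
      simp only [mem_filter, mem_union]
      constructor
      · rintro ⟨h1, h2⟩
        rcases hyall w with h3 | h3
        · left; exact ⟨h1, h3, h2⟩
        · right; exact ⟨h1, h3, h2⟩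
      · rintro (⟨h1, h2, h3⟩ | ⟨h1, h2, h3⟩)
        · exact ⟨h1, h3⟩
        · exact ⟨h1, h3⟩
    · rw [disjoint_left]
      intro w h1 h2
      simp only [mem_filter] at h1 h2
      omega
  -- (1)
  have hb : ∑ w ∈ XX u x, max (t w - 1) 0 ≤ d := by
    have := pair1_exH hP H.card (by omega) hm2 hy
    rw [hfQ, hQd] at this
    linarith
  have hb0 : 0 ≤ ∑ w ∈ XX u x, max (t w - 1) 0 := sum_nonneg (fun w _ => le_max_right _ _)
  have ha0 : 0 ≤ ∑ w ∈ XX u x, max (-(t w)) 0 := sum_nonneg (fun w _ => le_max_right _ _)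
  -- (5)
  have h5 : (((XX u x).filter (fun w => 1 < t w)).card : ℤ) ≤ ∑ w ∈ XX u x, max (t w - 1) 0 := by
    calc (((XX u x).filter (fun w => 1 < t w)).card : ℤ)
        = ∑ w ∈ (XX u x).filter (fun w => 1 < t w), (1 : ℤ) := by simp
      _ ≤ ∑ w ∈ (XX u x).filter (fun w => 1 < t w), max (t w - 1) 0 := by
          apply sum_le_sum
          intro w hw
          simp only [mem_filter] at hw
          exact le_trans (by omega) (le_max_left _ _)
      _ ≤ ∑ w ∈ XX u x, max (t w - 1) 0 :=
          sum_le_sum_of_subset_of_nonneg (filter_subset _ _) (fun w _ _ => le_max_right _ _)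
  -- (6)
  have h6 : ((XX u x).filter (fun w => t w = 1)).card ≤ 2 * s + I := by
    have h1 : insert u ((XX u x).filter (fun w => t w = 1)) ⊆ cla c x 1 := by
      intro w hw
      unfold cla
      simp only [mem_filter, mem_erase, mem_univ, and_true]
      rcases mem_insert.1 hw with h | h
      · subst h
        exact ⟨hxu.symm, by rw [H.sym]; exact hx⟩
      · simp only [mem_filter, mem_XX] at h
        refine ⟨h.1.2, ?_⟩
        have h2 := hP.hx w h.1.1 h.1.2
        rw [h.2] at h2
        rw [← h2]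
        simp
    have h2 := card_le_card h1
    rw [card_insert_of_notMem (by simp [mem_XX])] at h2
    have h3 := H.cl x 1
    omega
  -- (7)
  have h7 : ((XX u x).filter (fun w => t w = 0)).card ≤ 2 * s + 1 + I := by
    refine le_trans (card_le_card ?_) (H.cl x 0)
    intro w hw
    unfold cla
    simp only [mem_filter, mem_XX] at hw
    simp only [mem_filter, mem_erase, mem_univ, and_true]
    refine ⟨hw.1.2, ?_⟩
    have h2 := hP.hx w hw.1.1 hw.1.2
    rw [hw.2] at h2
    rw [← h2]
    simp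
  -- the split
  have hsplit : (XX u x).card = ((XX u x).filter (fun w => t w ≤ 0)).card +
      ((XX u x).filter (fun w => t w = 1)).card + ((XX u x).filter (fun w => 1 < t w)).card := by
    rw [← card_union_of_disjoint, ← card_union_of_disjoint]
    · congr 1
      ext w
      simp only [mem_filter, mem_union]
      constructor
      · intro h
        rcases lt_trichotomy (t w) 1 with h1 | h1 | h1
        · left; left; exact ⟨h, by omega⟩
        · left; right; exact ⟨h, h1⟩
        · right; exact ⟨h, h1⟩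
      · rintro ((h | h) | h) <;> exact h.1
    · rw [disjoint_left]
      intro w h1 h2
      simp only [mem_filter, mem_union] at h1 h2
      omega
    · rw [disjoint_left]
      intro w h1 h2
      simp only [mem_filter] at h1 h2
      omega
  have hlt : (XX u x).filter (fun w => t w < 1) = (XX u x).filter (fun w => t w ≤ 0) := by
    apply filter_congr
    intro w _
    omega
  have hiI := H.iI
  have hII := H.hI
  have hI1 : I ≤ s := le_trans (Nat.le_mul_of_pos_right I (by omega)) hII
  rcases le_or_gt m U.card with hcase | hcase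
  · -- case A
    exfalso
    have ht0 : ∀ w ∈ XX u x, 0 ≤ t w :=
      pair1_exL0 hP H.card (by omega) hm2 hy (by rw [← hU]; omega)
    have hae : ∑ w ∈ XX u x, max (-(t w)) 0 = 0 := by
      apply sum_eq_zero
      intro w hw
      have := ht0 w hw
      exact max_eq_right (by omega)
    have hz : (XX u x).filter (fun w => t w ≤ 0) = (XX u x).filter (fun w => t w = 0) := by
      apply filter_congr
      intro w hw
      have := ht0 w hw
      omega
    have h8 : (s : ℤ) + d + J.card ≤ 2 * s + 1 + I := by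
      rw [← hc0, hz]
      exact_mod_cast h7
    have h9 : (d : ℤ) ≤ I + i := by
      have : (m : ℤ) ≤ 2 * s + 1 + i + J.card := by
        have : m ≤ 2 * s + 1 + i + J.card := by omega
        exact_mod_cast this
      have h10 : (m : ℤ) = 3 * s + 2 := by exact_mod_cast hm3
      omega
    have h11 : 2 * I + 2 ≤ s := by
      rcases Nat.lt_or_ge I 3 with h | h
      · interval_cases I <;> omega
      · have h12 : I * 4 ≤ I * (I + 1) := Nat.mul_le_mul_left I (by omega)
        omega
    have hSL : SL c x (TT u 1 t) := by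
      refine sl_plift H.sym hP (by omega) ?_ ?_
      · rw [hlt]
        have : (((XX u x).filter (fun w => t w ≤ 0)).card : ℤ) + 1 ≤ m := by
          rw [hc0]
          have h10 : (m : ℤ) = 3 * s + 2 := by exact_mod_cast hm3
          omega
        exact_mod_cast this
      · have : (((XX u x).filter (fun w => 1 < t w)).card : ℤ) + 1 ≤ m := by
          have h10 : (m : ℤ) = 3 * s + 2 := by exact_mod_cast hm3
          omega
        exact_mod_cast this
    refine hn (ex_of_sl H.toSt hSL ?_ ?_)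
    · rw [exL_TT hxu 1 t (by norm_num), hae]
      omega
    · rw [exH_TT hxu 1 t (le_refl 1)]
      omega
  · -- case B
    have h8 := pair1_exL hP H.card (by omega) hm2 hy (by rw [← hU]; omega)
    rw [← hU] at h8
    have h10 : (m : ℤ) = 3 * s + 2 := by exact_mod_cast hm3
    have hcUz : (U.card : ℤ) = 2 * s + 1 + i + J.card := by exact_mod_cast hcU
    have h9 : ∑ w ∈ XX u x, max (-(t w)) 0 + i + J.card ≤ s := by linarith
    have hii : (0 : ℤ) ≤ i * (i + 1) := by positivity
    have hSL : SL c x (TT u 1 t) := by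
      refine sl_plift H.sym hP (by omega) ?_ ?_
      · rw [hlt]
        have : (((XX u x).filter (fun w => t w ≤ 0)).card : ℤ) + 1 ≤ m := by
          rw [hc0]
          linarith
        exact_mod_cast this
      · have : (((XX u x).filter (fun w => 1 < t w)).card : ℤ) + 1 ≤ m := by
          have : (0:ℤ) ≤ s := by positivity
          linarith
        exact_mod_cast this
    have hmain : (s : ℤ) ≤ I + d + J.card + ∑ w ∈ XX u x, max (t w - 1) 0 := by
      have h11 : ((XX u x).card : ℤ) = ((XX u x).filter (fun w => t w ≤ 0)).card +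
        ((XX u x).filter (fun w => t w = 1)).card + ((XX u x).filter (fun w => 1 < t w)).card := by
        exact_mod_cast hsplit
      have h12 : (((XX u x).filter (fun w => t w = 1)).card : ℤ) ≤ 2 * s + I := by exact_mod_cast h6
      have h13 : ((XX u x).card : ℤ) = 4 * s := by exact_mod_cast hcX
      rw [hc0] at h11
      linarith
    have hZ : ((XX u x).filter (fun w => yv c u w = 0)).card = Q.card +
        ((XX u x).filter (fun w => yv c u w = 0 ∧ 1 ≤ t w)).card := by
      rw [← hfQ, ← card_union_of_disjoint]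
      · congr 1
        ext w
        simp only [mem_filter, mem_union]
        constructor
        · rintro ⟨h1, h2⟩
          rcases le_or_gt (t w) 0 with h3 | h3
          · left; exact ⟨h1, h2, h3⟩
          · right; exact ⟨h1, h2, by omega⟩
        · rintro (⟨h1, h2, h3⟩ | ⟨h1, h2, h3⟩)
          · exact ⟨h1, h2⟩
          · exact ⟨h1, h2⟩
      · rw [disjoint_left]
        intro w h1 h2
        simp only [mem_filter] at h1 h2
        omega
    have hsg : (sg s i c u x).card = J.card +
        ((XX u x).filter (fun w => yv c u w = 0 ∧ 1 ≤ t w)).card := by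
      rw [hJ, ← card_union_of_disjoint]
      · congr 1
        ext w
        unfold sg
        simp only [mem_filter, mem_union]
        constructor
        · rintro ⟨h1, h2 | h2⟩
          · left; exact ⟨h1, (hy1 w).2 h2.1, h2.2⟩
          · right; exact ⟨h1, (hy0 w (mem_XX.1 h1).1).2 h2.1, h2.2⟩
        · rintro (⟨h1, h2, h3⟩ | ⟨h1, h2, h3⟩)
          · exact ⟨h1, Or.inl ⟨(hy1 w).1 h2, h3⟩⟩
          · exact ⟨h1, Or.inr ⟨(hy0 w (mem_XX.1 h1).1).1 h2, h3⟩⟩
      · rw [disjoint_left]
        intro w h1 h2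
        simp only [mem_filter] at h1 h2
        omega
    have hsgz : ((sg s i c u x).card : ℤ) = s + 1 + i - d + J.card := by
      have h11 : ((sg s i c u x).card : ℤ) = J.card +
        ((XX u x).filter (fun w => yv c u w = 0 ∧ 1 ≤ t w)).card := by exact_mod_cast hsg
      have h12 : (2 * s + 1 + i : ℤ) = Q.card +
        ((XX u x).filter (fun w => yv c u w = 0 ∧ 1 ≤ t w)).card := by
        have h13 := hZ
        rw [hcL] at h13
        exact_mod_cast h13
      rw [hQd] at h12
      linarith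
    have hJ0 : (0 : ℤ) ≤ J.card := by positivity
    have hi0 : (0 : ℤ) ≤ i := by positivity
    have hiIz : (i : ℤ) ≤ I := by exact_mod_cast hiI
    have hs5z : (5 : ℤ) ≤ s := by exact_mod_cast hs5
    have hor : (s : ℤ) - 1 ≤ ∑ w ∈ XX u x, max (t w - 1) 0 ∨
        (s : ℤ) - 1 ≤ ∑ w ∈ XX u x, max (-(t w)) 0 := by
      by_contra hcon
      rw [not_or, not_le, not_le] at hcon
      refine hn (ex_of_sl H.toSt hSL ?_ ?_)
      · rw [exL_TT hxu 1 t (by norm_num)]
        linarith [hcon.2]
      · rw [exH_TT hxu 1 t (le_refl 1)]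
        linarith [hcon.1]
    rcases hor with hor | hor
    · refine ⟨by linarith, ?_⟩
      have : ((sg s i c u x).card : ℤ) ≤ s + 2 := by linarith
      exact_mod_cast this
    · refine ⟨by linarith, ?_⟩
      have : ((sg s i c u x).card : ℤ) ≤ s + 2 := by linarith
      exact_mod_cast this

end X1
end ZS44129
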