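import Mathlib
import Pool.Agent.Work.MP_44129c_co.X1.Bud
import Pool.Agent.Work.MP_44129c_co.X1.Pair0
import Pool.Agent.Work.MP_44129c_co.X1.SLP
import Pool.Agent.Work.MP_44129c_co.X1.ExSl

/-!
# MP_44129c_co/X1, Low (size M-L): a zero `x` of `u` with a lifted pair

PROOF of `low_price`.  `yv c u x = 0`, so the pair is lifted with `z0 = 0`; `y = yv c u` has the values `0`, `1`; `H = cla c u 1 ⊆ X`
(`c u x = 0 ≠ 1`), `|H| = 2 s - i`, `|X| = 4 s`.  `R = RR s i c u x = {w ∈ X : y w = 1, 1 ≤ t w}`, `|R| = s + d`, `d = df`,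
`0 ≤ d ≤ s - i (i + 1)` (`df_nonneg`, `df_le`).  `J = {w ∈ X : y w = 0, 1 ≤ t w}`, `j = |J|`.  `U = {w ∈ X : y w = 1 ∨ 1 ≤ t w} = H ⊔ J`,
`|U| = 2 s - i + j`.  `a = ∑_X max (- t) 0`, `b = ∑_X max (t - 1) 0`; `T = TT u 0 t`, `a = exL x T`, `b = exH x T` (X1/SLP).
(1) `a ≤ d` (`pair0_exL`).  (2) if `|U| ≤ m - 1`: `b + (2 s - i) + j ≤ 3 s + 1` (`pair0_exH`).  (3) if `|U| ≥ m - 1`: `b = 0` (`pair0_exH0`).
(4) `{w ∈ X : 1 ≤ t w} = R ⊔ J` has `s + d + j` elements.  (5) `{w ∈ X : t w < 0}` has `≤ a` elements.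
(6) `{w ∈ X : t w = 0}` has at most `2 s + I` elements: with `u` it is contained in `cla c x 0` (`c x u = 0`, `tt_cast`), `cl`.
So `4 s = |X| ≤ (s + d + j) + a + (2 s + I)`: `s ≤ I + d + j + a ≤ I + 2 d + j`.
(7) `{w ∈ X : t w = 1} ⊆ cla c x 1` has `≤ 2 s + 1 + I` elements.
Case A: `|U| ≥ m`.  `b = 0`, so `s + d + j ≤ 2 s + 1 + I` by (4), (7); `j ≥ m - (2 s - i) = s + 2 + i`, so `d + i + 1 ≤ I`, `a ≤ d ≤ s - 2`
(`I + 1 ≤ s`).  `sl_plift` (`a < m`, `s + d + j ≤ 2 s + 1 + I ≤ m - 1`) and `ex_of_sl`: `x` is exact, contradiction.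
Case B: `|U| ≤ m - 1`: `b + j ≤ s + 1 + i`.  `sl_plift`: `s + d + j ≤ s + (s - i (i + 1)) + (s + 1 + i) ≤ 3 s + 1 = m - 1`, `a ≤ d ≤ s ≤ m - 1`.  As `x`
is not exact, `ex_of_sl` gives `a ≥ s - 1` or `b ≥ s - 1`.  If `a ≥ s - 1`: `d ≥ s - 1`, and `2 d + 2 + i + I ≥ s`.  If `b ≥ s - 1`:
`j ≤ i + 2`, `s ≤ I + 2 d + j ≤ 2 d + 2 + i + I`.
`sg`: `sg = (H \ R) ⊔ J`, `|sg| = (2 s - i) - (s + d) + j = s - i - d + j`.  If `a ≥ s - 1`: `d ≥ s - 1`, `j ≤ s + 1 + i`: `≤ s + 2`.  If `b ≥ s - 1`: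
`j ≤ i + 2`: `≤ s + 2`.
-/

set_option autoImplicit false

namespace ZS44129
namespace X1

open Finset E N

variable {V : Type} [Fintype V] [DecidableEq V] {m : ℕ}

theorem low_price [NeZero m] {c : V → V → ZMod m} {s I i : ℕ} {u : V} (H : Vx c s I i u) {x : V}
    (hxu : x ≠ u) (hx : c u x = 0) (hP : PLift c u x (yv c u x) (yv c u) (tt s i c u x))
    (hn : ¬ Ex c x) :
    (s : ℤ) ≤ 2 * df s i c u x + 2 + i + I ∧ (sg s i c u x).card ≤ s + 2 := by
  classical
  have hm3 : m = 3 * s + 2 := H.m3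
  have hs5 : 5 ≤ s := by
    rcases H.s5 with h | h <;> omega
  have hV : Fintype.card V = m + s := H.card
  haveI : Fact (1 < m) := ⟨by omega⟩
  have h01 : (0 : ZMod m) ≠ 1 := zero_ne_one
  have hyx : yv c u x = 0 := by
    unfold yv
    rw [if_neg]
    rw [hx]
    exact h01
  rw [hyx] at hP
  have hy : ∀ w ∈ XX u x, yv c u w = 0 ∨ yv c u w = 1 := by
    intro w _
    unfold yv
    split_ifs
    · exact Or.inr rfl
    · exact Or.inl rfl
  have hy1 : ∀ w, yv c u w = 1 ↔ c u w = 1 := by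
    intro w
    unfold yv
    split_ifs with h
    · exact ⟨fun _ => h, fun _ => rfl⟩
    · exact ⟨fun h' => absurd h' (by norm_num), fun h' => absurd h' h⟩
  have hXc : (XX u x).card + 2 = m + s := card_XX hV hxu
  -- the sets
  obtain ⟨t, htdef⟩ : ∃ t : V → ℤ, t = tt s i c u x := ⟨_, rfl⟩
  rw [← htdef] at hP
  obtain ⟨R, hR⟩ : ∃ R : Finset V, R = (XX u x).filter (fun w => yv c u w = 1 ∧ 1 ≤ t w) := ⟨_, rfl⟩
  obtain ⟨J, hJ⟩ : ∃ J : Finset V, J = (XX u x).filter (fun w => c u w = 0 ∧ 1 ≤ t w) := ⟨_, rfl⟩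
  obtain ⟨U, hU⟩ : ∃ U : Finset V, U = (XX u x).filter (fun w => yv c u w = 1 ∨ 1 ≤ t w) := ⟨_, rfl⟩
  have hRR : RR s i c u x = R := by
    rw [hR]
    ext w
    unfold RR cla
    rw [← htdef]
    simp only [mem_filter, mem_erase, mem_univ, and_true, mem_XX, hy1]
    constructor
    · rintro ⟨⟨h1, h2⟩, h3⟩
      refine ⟨⟨h1, ?_⟩, h2, h3⟩
      rintro rfl
      rw [hx] at h2
      exact h01 h2
    · rintro ⟨⟨h1, _⟩, h2, h3⟩
      exact ⟨⟨h1, h2⟩, h3⟩
  have hdf : df s i c u x = (R.card : ℤ) - s := by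
    unfold df
    rw [if_neg (by rw [hx]; exact h01), hRR]
  have hHX : cla c u 1 = (XX u x).filter (fun w => c u w = 1) := by
    ext w
    unfold cla
    simp only [mem_filter, mem_erase, mem_univ, and_true, mem_XX]
    constructor
    · rintro ⟨h1, h2⟩
      refine ⟨⟨h1, ?_⟩, h2⟩
      rintro rfl
      rw [hx] at h2
      exact h01 h2
    · rintro ⟨⟨h1, _⟩, h2⟩
      exact ⟨h1, h2⟩
  have hdn : 0 ≤ df s i c u x := df_nonneg H hxu
  have hdl : df s i c u x + i * (i + 1) ≤ s := df_le H hxu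
  have hexu : ∀ w ∈ XX u x, c u w = 0 ∨ c u w = 1 := fun w hw => H.ex w (mem_XX.1 hw).1
  -- card of U
  have hUc : U.card = (cla c u 1).card + J.card := by
    rw [← card_union_of_disjoint]
    · congr 1
      rw [hU, hHX, hJ]
      ext w
      simp only [mem_filter, mem_union, hy1]
      constructor
      · rintro ⟨h1, h2⟩
        rcases hexu w h1 with h3 | h3
        · rcases h2 with h2 | h2
          · exact absurd (h3.symm.trans h2) h01
          · exact Or.inr ⟨h1, h3, h2⟩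
        · exact Or.inl ⟨h1, h3⟩
      · rintro (⟨h1, h2⟩ | ⟨h1, h2, h3⟩)
        · exact ⟨h1, Or.inl h2⟩
        · exact ⟨h1, Or.inr h3⟩
    · rw [hHX, hJ, Finset.disjoint_left]
      intro w h1 h2
      have h3 := (mem_filter.1 h1).2
      have h4 := (mem_filter.1 h2).2.1
      exact h01 (h4.symm.trans h3)
  have hc1 := H.c1
  have hiI := H.iI
  have hi3 := H.i3
  -- (1)
  have e1 := pair0_exL hP hV (by omega) (by omega) hy
  rw [← hR] at e1
  -- (4)
  obtain ⟨P, hPd⟩ : ∃ P : Finset V, P = (XX u x).filter (fun w => 0 < t w) := ⟨_, rfl⟩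
  have hPc : P.card = R.card + J.card := by
    rw [← card_union_of_disjoint]
    · congr 1
      rw [hPd, hR, hJ]
      ext w
      simp only [mem_filter, mem_union, hy1]
      constructor
      · rintro ⟨h1, h2⟩
        rcases hexu w h1 with h3 | h3
        · exact Or.inr ⟨h1, h3, by omega⟩
        · exact Or.inl ⟨h1, h3, by omega⟩
      · rintro (⟨h1, h2, h3⟩ | ⟨h1, h2, h3⟩)
        · exact ⟨h1, by omega⟩
        · exact ⟨h1, by omega⟩
    · rw [hR, hJ, Finset.disjoint_left]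
      intro w h1 h2
      have h3 := (hy1 w).1 (mem_filter.1 h1).2.1
      have h4 := (mem_filter.1 h2).2.1
      exact h01 (h4.symm.trans h3)
  -- (5)
  obtain ⟨Nn, hNd⟩ : ∃ Nn : Finset V, Nn = (XX u x).filter (fun w => t w < 0) := ⟨_, rfl⟩
  have hNc : (Nn.card : ℤ) ≤ ∑ w ∈ XX u x, max (-(t w)) 0 := by
    have h1 : ∑ w ∈ Nn, (1 : ℤ) ≤ ∑ w ∈ Nn, max (-(t w)) 0 := by
      apply sum_le_sum
      intro w hw
      rw [hNd] at hw
      have := (mem_filter.1 hw).2
      exact le_max_of_le_left (by omega)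
    have h2 : ∑ w ∈ Nn, max (-(t w)) 0 ≤ ∑ w ∈ XX u x, max (-(t w)) 0 := by
      apply sum_le_sum_of_subset_of_nonneg
      · rw [hNd]
        exact filter_subset _ _
      · intro w _ _
        exact le_max_right _ _
    have h3 : ∑ w ∈ Nn, (1 : ℤ) = (Nn.card : ℤ) := by simp
    rw [← h3]
    exact h1.trans h2
  -- (6)
  have htc : ∀ w, ((t w : ℤ) : ZMod m) = c x w := by
    intro w
    rw [htdef]
    exact tt_cast s i c u x w
  obtain ⟨Z, hZd⟩ : ∃ Z : Finset V, Z = (XX u x).filter (fun w => t w = 0) := ⟨_, rfl⟩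
  have hZc : Z.card + 1 ≤ 2 * s + 1 + I := by
    have h1 : insert u Z ⊆ cla c x 0 := by
      intro w hw
      unfold cla
      rw [mem_filter, mem_erase]
      rcases mem_insert.1 hw with h2 | h2
      · subst h2
        refine ⟨⟨hxu.symm, mem_univ _⟩, ?_⟩
        rw [H.sym x w]
        exact hx
      · rw [hZd] at h2
        have h3 := mem_filter.1 h2
        refine ⟨⟨(mem_XX.1 h3.1).2, mem_univ _⟩, ?_⟩
        have h4 := htc w
        rw [h3.2, Int.cast_zero] at h4
        exact h4.symm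
    have h2 : u ∉ Z := by
      rw [hZd]
      intro h3
      exact (mem_XX.1 (mem_filter.1 h3).1).1 rfl
    have h3 := card_le_card h1
    rw [card_insert_of_notMem h2] at h3
    exact h3.trans (H.cl x 0)
  have hXsplit : (XX u x).card ≤ P.card + Nn.card + Z.card := by
    have h1 : XX u x ⊆ (P ∪ Nn) ∪ Z := by
      intro w hw
      rw [mem_union, mem_union, hPd, hNd, hZd, mem_filter, mem_filter, mem_filter]
      rcases lt_trichotomy (t w) 0 with h | h | h
      · exact Or.inl (Or.inr ⟨hw, h⟩)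
      · exact Or.inr ⟨hw, h⟩
      · exact Or.inl (Or.inl ⟨hw, h⟩)
    calc (XX u x).card ≤ ((P ∪ Nn) ∪ Z).card := card_le_card h1
      _ ≤ (P ∪ Nn).card + Z.card := card_union_le _ _
      _ ≤ P.card + Nn.card + Z.card := by
        have := card_union_le P Nn
        omega
  -- cards of sg
  have hsg : (sg s i c u x).card + R.card = (cla c u 1).card + J.card := by
    have h1 : sg s i c u x = ((cla c u 1) \ R) ∪ J := by
      unfold sg
      rw [← htdef, hHX, hR, hJ]
      ext w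
      simp only [mem_filter, mem_union, mem_sdiff, hy1]
      constructor
      · rintro ⟨h1, ⟨h2, h3⟩ | ⟨h2, h3⟩⟩
        · exact Or.inl ⟨⟨h1, h2⟩, fun h4 => by omega⟩
        · exact Or.inr ⟨h1, h2, h3⟩
      · rintro (⟨⟨h1, h2⟩, h3⟩ | ⟨h1, h2, h3⟩)
        · refine ⟨h1, Or.inl ⟨h2, ?_⟩⟩
          by_contra h4
          exact h3 ⟨h1, h2, by omega⟩
        · exact ⟨h1, Or.inr ⟨h2, h3⟩⟩
    have h2 : Disjoint ((cla c u 1) \ R) J := by
      rw [Finset.disjoint_left]
      intro w h3 h4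
      rw [hHX] at h3
      rw [hJ] at h4
      have h5 := (mem_filter.1 (mem_sdiff.1 h3).1).2
      have h6 := (mem_filter.1 h4).2.1
      exact h01 (h6.symm.trans h5)
    have h3 : R ⊆ cla c u 1 := by
      rw [hHX, hR]
      intro w hw
      have h4 := mem_filter.1 hw
      exact mem_filter.2 ⟨h4.1, (hy1 w).1 h4.2.1⟩
    have h4 := card_sdiff_add_card_eq_card h3
    rw [h1, card_union_of_disjoint h2]
    omega
  obtain ⟨a, ha⟩ : ∃ a : ℤ, a = ∑ w ∈ XX u x, max (-(t w)) 0 := ⟨_, rfl⟩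
  obtain ⟨b, hb⟩ : ∃ b : ℤ, b = ∑ w ∈ XX u x, max (t w - 1) 0 := ⟨_, rfl⟩
  have ha0 : 0 ≤ a := by
    rw [ha]
    exact sum_nonneg (fun w _ => le_max_right _ _)
  have hb0 : 0 ≤ b := by
    rw [hb]
    exact sum_nonneg (fun w _ => le_max_right _ _)
  rw [← ha] at e1 hNc
  have hexL : exL x (TT u 0 t) = a := by rw [ha]; exact exL_TT hxu 0 t le_rfl
  have hexH : exH x (TT u 0 t) = b := by rw [hb]; exact exH_TT hxu 0 t (by norm_num)
  have hsl : Nn.card + 1 ≤ m → P.card + 1 ≤ m → SL c x (TT u 0 t) := by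
    intro h1 h2
    rw [hNd] at h1
    rw [hPd] at h2
    exact sl_plift H.sym hP (by omega) h1 h2
  have hfin : SL c x (TT u 0 t) → a + 2 ≤ s → b + 2 ≤ s → False := by
    intro h1 h2 h3
    refine hn (ex_of_sl H.toSt h1 ?_ ?_)
    · rw [hexL]
      exact h2
    · rw [hexH]
      exact h3
  have hI := H.hI
  have hIs : I + 1 ≤ s := by
    rcases Nat.eq_zero_or_pos I with h | h
    · omega
    · nlinarith
  have hii : (i : ℤ) ≤ i * (i + 1) := by
    have : (0 : ℤ) ≤ i * i := mul_nonneg (by positivity) (by positivity)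
    linarith
  rcases Nat.lt_or_ge U.card m with hB | hA
  · -- Case B
    have e2 := pair0_exH hP hV (by omega) (by omega) hy (by rw [← hU]; omega)
    rw [← hU, ← hb] at e2
    have h1 : SL c x (TT u 0 t) := by
      apply hsl
      · zify
        have : (m : ℤ) = 3 * s + 2 := by exact_mod_cast hm3
        linarith
      · zify
        have : (m : ℤ) = 3 * s + 2 := by exact_mod_cast hm3
        rw [hPc]
        push_cast
        rw [hdf] at hdl
        have h3 : ((cla c u 1).card : ℤ) + i = 2 * s := by exact_mod_cast hc1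
        rw [hUc] at e2
        push_cast at e2
        linarith
    have h2 := hfin h1
    have h3 : ((cla c u 1).card : ℤ) + i = 2 * s := by exact_mod_cast hc1
    have h4 : (m : ℤ) = 3 * s + 2 := by exact_mod_cast hm3
    have h5 : (U.card : ℤ) = (cla c u 1).card + J.card := by exact_mod_cast hUc
    have h6 : ((sg s i c u x).card : ℤ) + R.card = (cla c u 1).card + J.card := by
      exact_mod_cast hsg
    have h7 : ((XX u x).card : ℤ) + 2 = m + s := by exact_mod_cast hXc
    have h8 : ((XX u x).card : ℤ) ≤ P.card + Nn.card + Z.card := by exact_mod_cast hXsplit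
    have h9 : (P.card : ℤ) = R.card + J.card := by exact_mod_cast hPc
    have h10 : (Z.card : ℤ) + 1 ≤ 2 * s + 1 + I := by exact_mod_cast hZc
    have hgoal : (s : ℤ) ≤ 2 * df s i c u x + 2 + i + I ∧
        ((sg s i c u x).card : ℤ) ≤ s + 2 := by
      rw [hdf]
      by_cases h11 : a + 2 ≤ s
      · by_cases h12 : b + 2 ≤ s
        · exact (h2 h11 h12).elim
        · push Not at h12
          constructor <;> omega
      · push Not at h11
        constructor <;> omega
    exact ⟨hgoal.1, by exact_mod_cast hgoal.2⟩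
  · -- Case A
    exfalso
    have e3 := pair0_exH0 hP hV (by omega) (by omega) hy (by rw [← hU]; omega)
    have hb1 : b = 0 := by
      rw [hb]
      apply sum_eq_zero
      intro w hw
      have := e3 w hw
      exact max_eq_right (by omega)
    have hP1 : P.card ≤ 2 * s + 1 + I := by
      have h1 : P ⊆ cla c x 1 := by
        intro w hw
        rw [hPd] at hw
        have h2 := mem_filter.1 hw
        have h3 := e3 w h2.1
        have h4 : t w = 1 := by omega
        unfold cla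
        rw [mem_filter, mem_erase]
        refine ⟨⟨(mem_XX.1 h2.1).2, mem_univ _⟩, ?_⟩
        have h5 := htc w
        rw [h4, Int.cast_one] at h5
        exact h5.symm
      exact (card_le_card h1).trans (H.cl x 1)
    have h3 : ((cla c u 1).card : ℤ) + i = 2 * s := by exact_mod_cast hc1
    have h4 : (m : ℤ) = 3 * s + 2 := by exact_mod_cast hm3
    have h5 : (U.card : ℤ) = (cla c u 1).card + J.card := by exact_mod_cast hUc
    have h9 : (P.card : ℤ) = R.card + J.card := by exact_mod_cast hPc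
    have h10 : (P.card : ℤ) ≤ 2 * s + 1 + I := by exact_mod_cast hP1
    have h11 : (m : ℤ) ≤ U.card := by exact_mod_cast hA
    have h12 : (I : ℤ) + 1 ≤ s := by exact_mod_cast hIs
    have h13 : (0 : ℤ) ≤ i := by positivity
    rw [hdf] at hdn
    apply hfin
    · apply hsl
      · zify
        linarith
      · zify
        linarith
    · linarith
    · rw [hb1]
      omega

end X1
end ZS44129
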