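import Mathlib
import Pool.Agent.Work.MP_44129c_co.X1.Bud

/-!
# MP_44129c_co/X1, Near (size M): two elements with `δ ≥ s + 1`

`S = 2 s - i`, `m = 3 s + 2`; `fam_no`: for `B ⊆ X`, `|B| ≤ s - i`, no multiple of `m` is in `[S + δ(B) - (s - 1), S + δ(B)]`; in other
words: (*) if `S + δ(B) ≥ m` then `S + δ(B) ≥ m + s`.
PROOF of `near_pair`: `S + δ w₁ + δ w₂ ≥ 2 s - i + 2 s + 2 ≥ m`, so by (*) (`|B| = 2 ≤ s - i`) `S + δ w₁ + δ w₂ ≥ m + s = 4 s + 2`:
`δ w₁ + δ w₂ ≥ 2 s + 2 + i`.
PROOF of `near_neg`.  Otherwise let `N₀ ⊆ X`, `|N₀| = i + 1`, `δ < 0` on `N₀`.  Claim: `S + δ w₁ + δ w₂ + δ(N') ≥ m + s` for every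
`N' ⊆ N₀`, by induction (`N' = ∅`: `near_pair`; adding `z`: `δ z ≥ i - s` by `dl_win`, so the sum is `≥ m + s + i - s ≥ m`, and
(*) for `{w₁, w₂} ∪ N'`, which has at most `i + 3 ≤ s - i` elements: `i3` for `i ≥ 1`, `s ≥ 5` for `i = 0`).  For `N' = N₀`:
`4 s + 2 ≤ 2 s - i + 2 (s + 1 + i) - (i + 1) = 4 s + 1`: contradiction.
PROOF of `near_pos`.  (a) At most three elements have `δ ≥ s + 1`: four of them (`4 ≤ s - i`) would have
`δ(B) ≥ 2 (2 s + 2 + i)` (`near_pair` twice) and `δ(B) ≤ 4 (s + 1 + i)`; `S + δ(B) ≥ 6 s + 4 + i ≥ 2 m` and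
`S + δ(B) - (s - 1) ≤ 5 s + 5 + 3 i ≤ 2 m` (`i3`): `2 m` is in the interval, contradiction to `fam_no`.
(b) At most `i` elements have `1 ≤ δ ≤ s`: otherwise let `P₀` be a set of `i + 1` of them; claim
`S + δ w₁ + δ(P') ≤ m - 1` for `P' ⊆ P₀` by induction: `P' = ∅`: `dl_win`; adding `z`: the sum is `≤ m - 1 + s`, so
its value minus `s - 1` is `≤ m`; if the sum is `≥ m` then `m` is in the interval of `{w₁} ∪ P'` (`i + 2 ≤ s - i`), contradiction.
For `P' = P₀`: `2 s - i + (s + 1) + (i + 1) ≤ m - 1 = 3 s + 1`: contradiction.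
PROOF of `near_price`.  `c u x = 0`: `x ∉ cla c u 1`, for `w ∈ cla c u 1` (`w ∈ X`, `y w = 1`): `1 ≤ tt` iff `0 ≤ δ w`; so
`|RR| ≥ (2 s - i) - i`, `df ≥ s - 2 i`, and `2 (s - 2 i) + 2 + i + I ≥ s` by `i3`.  `c u x = 1`: `w ∈ cla c u 0` (`w ∈ X`, `y w = 0`):
`tt ≤ 0` iff `δ w ≤ 0`; `|QQ| ≥ 2 s + 1 + i - (3 + i) = 2 s - 2`, `df ≥ s - 2`, `2 (s - 2) + 1 + I ≥ s + i` (`s ≥ 5`, `iI`).
`sg`: for `w ∈ sg` `δ w ≠ 0`, so `|sg| ≤ i + 3 + i ≤ s + 2`.
(`(0 : ZMod m) ≠ 1`.)
-/

set_option autoImplicit false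

namespace ZS44129
namespace X1

open Finset E

variable {V : Type} [Fintype V] [DecidableEq V] {m : ℕ}

private theorem nr_star [NeZero m] {c : V → V → ZMod m} {s I i : ℕ} {u : V} (H : Vx c s I i u) {x : V}
    (hx : x ≠ u) (B : Finset V) (hB : B ⊆ XX u x) (hBc : B.card + i ≤ s)
    (h : (3 * s + 2 : ℤ) ≤ 2 * s - i + ∑ w ∈ B, dl s i c u x w) :
    (4 * s + 2 : ℤ) ≤ 2 * s - i + ∑ w ∈ B, dl s i c u x w := by
  by_contra h1
  push Not at h1
  have hm : (m : ℤ) = 3 * s + 2 := by
    have := H.m3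
    subst this
    push_cast
    ring
  exact fam_no H hx B hB hBc m (by rw [hm]; linarith) (by rw [hm]; linarith) (dvd_refl _)

private theorem nr_pair_sub {u x w₁ w₂ : V} (h1 : w₁ ∈ XX u x) (h2 : w₂ ∈ XX u x) :
    ({w₁, w₂} : Finset V) ⊆ XX u x := by
  intro w hw
  rw [mem_insert, mem_singleton] at hw
  rcases hw with rfl | rfl
  · exact h1
  · exact h2

theorem near_pair [NeZero m] {c : V → V → ZMod m} {s I i : ℕ} {u : V} (H : Vx c s I i u) {x : V}
    (hx : x ≠ u) {w₁ w₂ : V} (h1 : w₁ ∈ XX u x) (h2 : w₂ ∈ XX u x) (hne : w₁ ≠ w₂)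
    (b1 : (s : ℤ) + 1 ≤ dl s i c u x w₁) (b2 : (s : ℤ) + 1 ≤ dl s i c u x w₂) :
    2 * (s : ℤ) + 2 + i ≤ dl s i c u x w₁ + dl s i c u x w₂ := by
  have hi3 := H.i3
  have hc : ({w₁, w₂} : Finset V).card = 2 := card_pair hne
  have h3 := nr_star H hx {w₁, w₂} (nr_pair_sub h1 h2) (by omega)
  rw [sum_pair hne] at h3
  have h4 : (3 * (i : ℤ)) + 2 ≤ s := by exact_mod_cast hi3
  have h5 : (0 : ℤ) ≤ i := by positivity
  have h6 := h3 (by linarith)
  linarith

private theorem nr_neg_claim [NeZero m] {c : V → V → ZMod m} {s I i : ℕ} {u : V} (H : Vx c s I i u)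
    {x : V} (hx : x ≠ u) {w₁ w₂ : V} (h1 : w₁ ∈ XX u x) (h2 : w₂ ∈ XX u x) (hne : w₁ ≠ w₂)
    (b1 : (s : ℤ) + 1 ≤ dl s i c u x w₁) (b2 : (s : ℤ) + 1 ≤ dl s i c u x w₂) (N : Finset V) :
    N ⊆ XX u x → (∀ w ∈ N, dl s i c u x w < 0) → N.card ≤ i + 1 →
    (4 * s + 2 : ℤ) ≤ 2 * s - i + (dl s i c u x w₁ + dl s i c u x w₂ + ∑ w ∈ N, dl s i c u x w) := by
  have hi3 : (3 * (i : ℤ)) + 2 ≤ s := by exact_mod_cast H.i3
  have h0i : (0 : ℤ) ≤ i := by positivity
  have hs0 : (0 : ℤ) ≤ s := by positivity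
  induction N using Finset.induction_on with
  | empty =>
    intro _ _ _
    have := near_pair H hx h1 h2 hne b1 b2
    rw [sum_empty]
    linarith
  | insert z N hz ih =>
    intro hN hneg hcard
    rw [card_insert_of_notMem hz] at hcard
    have h3 := ih (fun w hw => hN (mem_insert_of_mem hw)) (fun w hw => hneg w (mem_insert_of_mem hw))
      (by omega)
    have hzX : z ∈ XX u x := hN (mem_insert_self _ _)
    have h4 := (dl_win H hx hzX).1
    have hn1 : w₁ ∉ insert z N := fun h => by have := hneg _ h; linarith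
    have hn2 : w₂ ∉ insert z N := fun h => by have := hneg _ h; linarith
    have hsum : ∑ w ∈ insert w₁ (insert w₂ (insert z N)), dl s i c u x w =
        dl s i c u x w₁ + (dl s i c u x w₂ + (dl s i c u x z + ∑ w ∈ N, dl s i c u x w)) := by
      rw [sum_insert, sum_insert hn2, sum_insert hz]
      rw [mem_insert, not_or]
      exact ⟨hne, hn1⟩
    have hcB : (insert w₁ (insert w₂ (insert z N))).card ≤ N.card + 3 := by
      have a1 := card_insert_le w₁ (insert w₂ (insert z N))
      have a2 := card_insert_le w₂ (insert z N)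
      have a3 := card_insert_le z N
      omega
    have h5 := nr_star H hx (insert w₁ (insert w₂ (insert z N))) (by
      intro w hw
      rw [mem_insert, mem_insert] at hw
      rcases hw with rfl | rfl | hw
      · exact h1
      · exact h2
      · exact hN hw) (by
      have b3 := H.i3
      have b5 := H.s5
      omega)
    rw [hsum] at h5
    rw [sum_insert hz]
    have h6 := h5 (by linarith)
    linarith

theorem near_neg [NeZero m] {c : V → V → ZMod m} {s I i : ℕ} {u : V} (H : Vx c s I i u) {x : V}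
    (hx : x ≠ u) {w₁ w₂ : V} (h1 : w₁ ∈ XX u x) (h2 : w₂ ∈ XX u x) (hne : w₁ ≠ w₂)
    (b1 : (s : ℤ) + 1 ≤ dl s i c u x w₁) (b2 : (s : ℤ) + 1 ≤ dl s i c u x w₂) :
    ((XX u x).filter (fun w => dl s i c u x w < 0)).card ≤ i := by
  by_contra hcon
  push Not at hcon
  obtain ⟨N, hN, hNc⟩ := exists_subset_card_eq (Nat.succ_le_of_lt hcon)
  have hmem : ∀ w ∈ N, w ∈ XX u x ∧ dl s i c u x w < 0 := fun w hw => by
    have := hN hw
    rwa [mem_filter] at this
  have h3 := nr_neg_claim H hx h1 h2 hne b1 b2 N (fun w hw => (hmem w hw).1)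
    (fun w hw => (hmem w hw).2) (by omega)
  have h4 : ∑ w ∈ N, dl s i c u x w ≤ ∑ w ∈ N, (-1 : ℤ) :=
    sum_le_sum (fun w hw => by have := (hmem w hw).2; linarith)
  rw [sum_const, hNc, nsmul_eq_mul] at h4
  have h5 := (dl_win H hx h1).2
  have h6 := (dl_win H hx h2).2
  push_cast at h4
  linarith

private theorem nr_big [NeZero m] {c : V → V → ZMod m} {s I i : ℕ} {u : V} (H : Vx c s I i u) {x : V}
    (hx : x ≠ u) : ((XX u x).filter (fun w => (s : ℤ) + 1 ≤ dl s i c u x w)).card ≤ 3 := by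
  by_contra hcon
  push Not at hcon
  obtain ⟨N, hN, hNc⟩ := exists_subset_card_eq (Nat.succ_le_of_lt hcon)
  have hmem : ∀ w ∈ N, w ∈ XX u x ∧ (s : ℤ) + 1 ≤ dl s i c u x w := fun w hw => by
    have := hN hw
    rwa [mem_filter] at this
  have hNc' : N.card = 4 := hNc
  obtain ⟨a, N1, ha, rfl, hN1⟩ := card_eq_succ.1 hNc'
  obtain ⟨b, N2, hb, rfl, hN2⟩ := card_eq_succ.1 hN1
  obtain ⟨d, e, hde, rfl⟩ := card_eq_two.1 hN2
  have ma := hmem a (by simp)
  have mb := hmem b (by simp)
  have md := hmem d (by simp)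
  have me := hmem e (by simp)
  have hab : a ≠ b := by
    rintro rfl
    exact ha (by simp)
  have p1 := near_pair H hx ma.1 mb.1 hab ma.2 mb.2
  have p2 := near_pair H hx md.1 me.1 hde md.2 me.2
  have qa := (dl_win H hx ma.1).2
  have qb := (dl_win H hx mb.1).2
  have qd := (dl_win H hx md.1).2
  have qe := (dl_win H hx me.1).2
  have hsum : ∑ w ∈ insert a (insert b ({d, e} : Finset V)), dl s i c u x w =
      dl s i c u x a + (dl s i c u x b + (dl s i c u x d + dl s i c u x e)) := by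
    rw [sum_insert ha, sum_insert hb, sum_pair hde]
  have hm : (m : ℤ) = 3 * s + 2 := by
    have := H.m3
    subst this
    push_cast
    ring
  have hi3 : (3 * (i : ℤ)) + 2 ≤ s := by exact_mod_cast H.i3
  have h0i : (0 : ℤ) ≤ i := by positivity
  refine fam_no H hx _ (fun w hw => (hmem w hw).1) (by
    have b3 := H.i3
    have b5 := H.s5
    omega) (2 * m) ?_ ?_ (Dvd.intro_left 2 rfl)
  · rw [hsum, hm]
    linarith
  · rw [hsum, hm]
    linarith

private theorem nr_small_claim [NeZero m] {c : V → V → ZMod m} {s I i : ℕ} {u : V}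
    (H : Vx c s I i u) {x : V} (hx : x ≠ u) {w₁ : V} (h1 : w₁ ∈ XX u x)
    (b1 : (s : ℤ) + 1 ≤ dl s i c u x w₁) (N : Finset V) :
    N ⊆ XX u x → (∀ w ∈ N, dl s i c u x w ≤ s) → N.card ≤ i + 1 →
    2 * s - i + (dl s i c u x w₁ + ∑ w ∈ N, dl s i c u x w) ≤ (3 * s + 1 : ℤ) := by
  have hm : (m : ℤ) = 3 * s + 2 := by
    have := H.m3
    subst this
    push_cast
    ring
  induction N using Finset.induction_on with
  | empty =>
    intro _ _ _
    have := (dl_win H hx h1).2
    rw [sum_empty]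
    linarith
  | insert z N hz ih =>
    intro hN hneg hcard
    rw [card_insert_of_notMem hz] at hcard
    have h3 := ih (fun w hw => hN (mem_insert_of_mem hw)) (fun w hw => hneg w (mem_insert_of_mem hw))
      (by omega)
    have hzs := hneg z (mem_insert_self _ _)
    have hn1 : w₁ ∉ insert z N := fun h => by have := hneg _ h; linarith
    have hsum : ∑ w ∈ insert w₁ (insert z N), dl s i c u x w =
        dl s i c u x w₁ + (dl s i c u x z + ∑ w ∈ N, dl s i c u x w) := by
      rw [sum_insert hn1, sum_insert hz]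
    have hcB : (insert w₁ (insert z N)).card ≤ N.card + 2 := by
      have a1 := card_insert_le w₁ (insert z N)
      have a3 := card_insert_le z N
      omega
    rw [sum_insert hz]
    by_contra hcon
    push Not at hcon
    refine fam_no H hx (insert w₁ (insert z N)) (by
      intro w hw
      rw [mem_insert] at hw
      rcases hw with rfl | hw
      · exact h1
      · exact hN hw) (by
      have b3 := H.i3
      omega) m ?_ ?_ (dvd_refl _)
    · rw [hsum, hm]
      linarith
    · rw [hsum, hm]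
      linarith

theorem near_pos [NeZero m] {c : V → V → ZMod m} {s I i : ℕ} {u : V} (H : Vx c s I i u) {x : V}
    (hx : x ≠ u) {w₁ w₂ : V} (h1 : w₁ ∈ XX u x) (h2 : w₂ ∈ XX u x) (hne : w₁ ≠ w₂)
    (b1 : (s : ℤ) + 1 ≤ dl s i c u x w₁) (b2 : (s : ℤ) + 1 ≤ dl s i c u x w₂) :
    ((XX u x).filter (fun w => 0 < dl s i c u x w)).card ≤ 3 + i := by
  have hb := nr_big H hx
  have hsm : ((XX u x).filter (fun w => 0 < dl s i c u x w ∧ dl s i c u x w ≤ s)).card ≤ i := by
    by_contra hcon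
    push Not at hcon
    obtain ⟨N, hN, hNc⟩ := exists_subset_card_eq (Nat.succ_le_of_lt hcon)
    have hmem : ∀ w ∈ N, w ∈ XX u x ∧ 0 < dl s i c u x w ∧ dl s i c u x w ≤ s := fun w hw => by
      have := hN hw
      rwa [mem_filter] at this
    have h3 := nr_small_claim H hx h1 b1 N (fun w hw => (hmem w hw).1)
      (fun w hw => (hmem w hw).2.2) (by omega)
    have h4 : ∑ w ∈ N, (1 : ℤ) ≤ ∑ w ∈ N, dl s i c u x w :=
      sum_le_sum (fun w hw => by have := (hmem w hw).2.1; linarith)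
    rw [sum_const, hNc, nsmul_eq_mul] at h4
    push_cast at h4
    linarith
  have hsub : (XX u x).filter (fun w => 0 < dl s i c u x w) ⊆
      (XX u x).filter (fun w => (s : ℤ) + 1 ≤ dl s i c u x w) ∪
        (XX u x).filter (fun w => 0 < dl s i c u x w ∧ dl s i c u x w ≤ s) := by
    intro w hw
    rw [mem_filter] at hw
    rw [mem_union, mem_filter, mem_filter]
    by_cases h : (s : ℤ) + 1 ≤ dl s i c u x w
    · exact Or.inl ⟨hw.1, h⟩
    · exact Or.inr ⟨hw.1, hw.2, by omega⟩
  have h5 := card_le_card hsub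
  have h6 := card_union_le ((XX u x).filter (fun w => (s : ℤ) + 1 ≤ dl s i c u x w))
    ((XX u x).filter (fun w => 0 < dl s i c u x w ∧ dl s i c u x w ≤ s))
  omega

theorem near_price [NeZero m] {c : V → V → ZMod m} {s I i : ℕ} {u : V} (H : Vx c s I i u) {x : V}
    (hx : x ≠ u) {w₁ w₂ : V} (h1 : w₁ ∈ XX u x) (h2 : w₂ ∈ XX u x) (hne : w₁ ≠ w₂)
    (b1 : (s : ℤ) + 1 ≤ dl s i c u x w₁) (b2 : (s : ℤ) + 1 ≤ dl s i c u x w₂) :
    (c u x = 0 → (s : ℤ) ≤ 2 * df s i c u x + 2 + i + I) ∧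
      (c u x = 1 → (s : ℤ) + i ≤ 2 * df s i c u x + 1 + I) ∧ (sg s i c u x).card ≤ s + 2 := by
  have hi3 := H.i3
  have hiI := H.iI
  have hs5 := H.s5
  have hc1 := H.c1
  have hc0 := H.c0
  haveI : Fact (1 < m) := ⟨by have := H.m3; omega⟩
  have h01 : (0 : ZMod m) ≠ 1 := zero_ne_one
  have hneg := near_neg H hx h1 h2 hne b1 b2
  have hpos := near_pos H hx h1 h2 hne b1 b2
  refine ⟨fun hux => ?_, fun hux => ?_, ?_⟩
  · have hsub : cla c u 1 ⊆ RR s i c u x ∪ (XX u x).filter (fun w => dl s i c u x w < 0) := by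
      intro w hw
      have hw' := hw
      unfold cla at hw'
      rw [mem_filter, mem_erase] at hw'
      rw [mem_union]
      by_cases h : 1 ≤ tt s i c u x w
      · left
        unfold RR
        rw [mem_filter]
        exact ⟨hw, h⟩
      · right
        rw [mem_filter]
        refine ⟨?_, ?_⟩
        · unfold XX
          rw [mem_erase, mem_erase]
          refine ⟨?_, hw'.1.1, mem_univ _⟩
          rintro rfl
          exact h01 (hux.symm.trans hw'.2)
        · unfold dl yv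
          rw [if_pos hw'.2]
          omega
    have h5 := card_le_card hsub
    have h6 := card_union_le (RR s i c u x) ((XX u x).filter (fun w => dl s i c u x w < 0))
    unfold df
    rw [if_neg (by rw [hux]; exact h01)]
    omega
  · have hsub : cla c u 0 ⊆ QQ s i c u x ∪ (XX u x).filter (fun w => 0 < dl s i c u x w) := by
      intro w hw
      have hw' := hw
      unfold cla at hw'
      rw [mem_filter, mem_erase] at hw'
      rw [mem_union]
      by_cases h : tt s i c u x w ≤ 0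
      · left
        unfold QQ
        rw [mem_filter]
        exact ⟨hw, h⟩
      · right
        rw [mem_filter]
        refine ⟨?_, ?_⟩
        · unfold XX
          rw [mem_erase, mem_erase]
          refine ⟨?_, hw'.1.1, mem_univ _⟩
          rintro rfl
          exact h01 (hw'.2.symm.trans hux)
        · unfold dl yv
          rw [if_neg (by rw [hw'.2]; exact h01)]
          omega
    have h5 := card_le_card hsub
    have h6 := card_union_le (QQ s i c u x) ((XX u x).filter (fun w => 0 < dl s i c u x w))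
    unfold df
    rw [if_pos hux]
    omega
  · have hsub : sg s i c u x ⊆ (XX u x).filter (fun w => dl s i c u x w < 0) ∪
        (XX u x).filter (fun w => 0 < dl s i c u x w) := by
      intro w hw
      unfold sg at hw
      rw [mem_filter] at hw
      rw [mem_union, mem_filter, mem_filter]
      rcases hw.2 with h | h
      · left
        refine ⟨hw.1, ?_⟩
        unfold dl yv
        rw [if_pos h.1]
        omega
      · right
        refine ⟨hw.1, ?_⟩
        unfold dl yv
        rw [if_neg (by rw [h.1]; exact h01)]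
        omega
    have h5 := card_le_card hsub
    have h6 := card_union_le ((XX u x).filter (fun w => dl s i c u x w < 0))
      ((XX u x).filter (fun w => 0 < dl s i c u x w))
    omega

end X1
end ZS44129
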