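import Mathlib

/-!
# MP_44129c_co/X1, Num (size S-M): the last inequality

`p₀ = (s - 1 - i - I) / 2`, `p₁ = (s + i - I) / 2` (natural numbers).
PROOF.  `s = 5`: `I ≤ 1`, `i ∈ {0, 1}`: `i = 0`: `p₀ ≥ 1`, `p₁ = 2`, `x + 2 y ≤ 5`, claim `2 x y + 1 ≤ 3 x + 4 y`; `i = 1`: `x + 2 y ≤ 3`, claim
`2 x y + 1 ≤ 2 x + 5 y` (`interval_cases y`).  (`I = 0` is similar: `p₀ = 2` for `i = 0`, `p₁ = 2`.)
`s ≥ 8`: it is enough that `2 y ≤ s - i - 2` (then `2 x y ≤ x (s - i - 2)`, and `y (s - 1 + i) ≥ 1` if `y ≥ 1`, `x (s - i - 2) ≥ 1` if `y = 0`,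
as `i + 3 ≤ s`).  Otherwise `2 y ≥ s - 1 - i`; `2 p₁ ≥ s + i - I - 1`, so
`(s - 1 - i)(s - 1 + i - I) ≤ 2 y * 2 p₁ / 1 ≤ 4 (s - i (i + 1)) ≤ 4 s`; as `i ≤ I` the left side is
`≥ (s - 1)(s - 1 - I)` (`(s-1-i)(s-1+i-I) = (s-1)(s-1-I) + i (I - i)`), and `(s - 1)(s - 1 - I) > 4 s` for `s ≥ 8`:
`I ≤ 2`: `(s - 1)(s - 3) > 4 s`; `I ≥ 3`: `4 I ≤ s`, `s ≥ 12`.
-/

set_option autoImplicit false

namespace ZS44129
namespace X1

theorem num_term {s I i x y : ℕ} (hs : s = 5 ∨ 8 ≤ s) (hI : I * (I + 1) ≤ s) (hi : i ≤ I)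
    (h : x * ((s - 1 - i - I) / 2) + y * ((s + i - I) / 2) + i * (i + 1) ≤ s) (h0 : 0 < x + y) :
    2 * (x : ℤ) * y + 1 ≤ x * (s - i - 2) + y * (s - 1 + i) := by
  rcases hs with rfl | hs
  · have hI1 : I ≤ 1 := by
      by_contra hcon
      have : 2 ≤ I := by omega
      have : 2 * 3 ≤ I * (I + 1) := Nat.mul_le_mul (by omega) (by omega)
      omega
    have hI' : I = 0 ∨ I = 1 := by omega
    have hi' : i = 0 ∨ i = 1 := by omega
    have hc : (I = 0 ∧ i = 0) ∨ (I = 1 ∧ i = 0) ∨ (I = 1 ∧ i = 1) := by omega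
    rcases hc with ⟨rfl, rfl⟩ | ⟨rfl, rfl⟩ | ⟨rfl, rfl⟩
    · norm_num at h ⊢
      have hy : y ≤ 2 := by omega
      have hx : x ≤ 2 := by omega
      interval_cases y <;> interval_cases x <;> omega
    · norm_num at h ⊢
      have hy : y ≤ 2 := by omega
      have hx : x ≤ 5 := by omega
      interval_cases y <;> interval_cases x <;> omega
    · norm_num at h ⊢
      have hy : y ≤ 1 := by omega
      have hx : x ≤ 3 := by omega
      interval_cases y <;> interval_cases x <;> omega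
  · have hI3 : I + 3 ≤ s := by
      rcases Nat.lt_or_ge I 3 with hI3 | hI3
      · omega
      · have : I * 4 ≤ I * (I + 1) := Nat.mul_le_mul_left _ (by omega)
        omega
    -- `2 y ≤ s - i - 2`
    have hy : 2 * y + i + 2 ≤ s := by
      by_contra hcon
      have h1 : s ≤ 2 * y + 1 + i := by omega
      have h2 : s + i ≤ 2 * ((s + i - I) / 2) + I + 1 := by omega
      obtain ⟨p, hp⟩ : ∃ p, p = (s + i - I) / 2 := ⟨_, rfl⟩
      rw [← hp] at h h2
      have h3 : y * p + i * (i + 1) ≤ s := by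
        have := Nat.zero_le (x * ((s - 1 - i - I) / 2))
        omega
      have hz1 : (s : ℤ) - 1 - i ≤ 2 * y := by
        have : (s : ℤ) ≤ 2 * y + 1 + i := by exact_mod_cast h1
        linarith
      have hz2 : (s : ℤ) - 1 + i - I ≤ 2 * p := by
        have : (s : ℤ) + i ≤ 2 * p + I + 1 := by exact_mod_cast h2
        linarith
      have hz3 : (y : ℤ) * p + i * (i + 1) ≤ s := by exact_mod_cast h3
      have hz4 : (I : ℤ) + 3 ≤ s := by exact_mod_cast hI3
      have hz5 : (i : ℤ) ≤ I := by exact_mod_cast hi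
      have hz6 : (0 : ℤ) ≤ i := by positivity
      have hz7 : ((s : ℤ) - 1 - i) * (s - 1 + i - I) ≤ (2 * y) * (2 * p) := by
        apply mul_le_mul hz1 hz2
        · linarith
        · positivity
      have hz8 : (8 : ℤ) ≤ s := by exact_mod_cast hs
      have hz9 : (I : ℤ) * (I + 1) ≤ s := by exact_mod_cast hI
      have hz10 : ((s : ℤ) - 1) * (s - 1 - I) ≤ (s - 1 - i) * (s - 1 + i - I) := by
        nlinarith [mul_nonneg hz6 (sub_nonneg.2 hz5)]
      have hz11 : ((s : ℤ) - 1) * (s - 1 - I) ≤ 4 * s := by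
        nlinarith [mul_nonneg hz6 hz6]
      rcases Nat.lt_or_ge I 3 with hI4 | hI4
      · have : (I : ℤ) ≤ 2 := by exact_mod_cast (by omega : I ≤ 2)
        nlinarith
      · have h4 : (4 : ℤ) * I ≤ s := by
          have : I * 4 ≤ I * (I + 1) := Nat.mul_le_mul_left _ (by omega)
          exact_mod_cast (by omega : 4 * I ≤ s)
        nlinarith
    have hyz : 2 * (y : ℤ) ≤ s - i - 2 := by
      have : 2 * (y : ℤ) + i + 2 ≤ s := by exact_mod_cast hy
      linarith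
    have hz4 : (I : ℤ) + 3 ≤ s := by exact_mod_cast hI3
    have hz5 : (i : ℤ) ≤ I := by exact_mod_cast hi
    have hz6 : (0 : ℤ) ≤ i := by positivity
    have hx0 : (0 : ℤ) ≤ x := by positivity
    have hy0 : (0 : ℤ) ≤ y := by positivity
    have h1 : (x : ℤ) * (2 * y) ≤ x * (s - i - 2) := mul_le_mul_of_nonneg_left hyz hx0
    rcases Nat.eq_zero_or_pos y with rfl | hy1
    · have hx1 : (1 : ℤ) ≤ x := by exact_mod_cast (by omega : 1 ≤ x)
      have : (1 : ℤ) * 1 ≤ x * (s - i - 2) := mul_le_mul hx1 (by linarith) (by norm_num) hx0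
      push_cast
      linarith
    · have hy1' : (1 : ℤ) ≤ y := by exact_mod_cast hy1
      have : (1 : ℤ) * 1 ≤ y * (s - 1 + i) := mul_le_mul hy1' (by linarith) (by norm_num) hy0
      linarith

end X1
end ZS44129
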