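import Mathlib
import Pool.Agent.Work.MP_44129c_co.X1.Low
import Pool.Agent.Work.MP_44129c_co.X1.High
import Pool.Agent.Work.MP_44129c_co.X1.Gplx
import Pool.Agent.Work.MP_44129c_co.X1.Near
import Pool.Agent.Work.MP_44129c_co.X1.Num

/-!
# MP_44129c_co/X1, Term (size M): the two inequalities at one exact vertex

PROOF of `price`: `gplx`: a lifted pair (`low_price`, `high_price`; `c u x` is `0` or `1` as `u` is exact) or two elements with
`δ ≥ s + 1` (`near_price`).
PROOF of `sig_vx`: `w ∈ G \ {u}`, `c u w ≠ c x w`: `w ≠ x` (`x` is not exact), `c u w`, `c x w = c w x ∈ {0, 1}`, `tt s i c u x w = yv c x w` (`tt_ex`), so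
`w ∈ sg s i c u x`.
PROOF of `term_vx`: `b₀`, `b₁` = the numbers of `b ∈ B` with `c u b = 0`, `= 1` (`u ∉ B`).  By `price` and `df` integer: `df ≥ (s - 1 - i - I) / 2`
on the first, `df ≥ (s + i - I) / 2` on the second (natural division, `omega`), `df ≥ 0` on all `x ≠ u`; `df_sum` gives
`b₀ p₀ + b₁ p₁ + i (i + 1) ≤ s`; `b₀ + b₁ = |B| > 0`; `num_term` and `|cla c u 1| = 2 s - i`, `|cla c u 0| = 2 s + 1 + i`.
-/

set_option autoImplicit false

namespace ZS44129
namespace X1

open Finset E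

variable {V : Type} [Fintype V] [DecidableEq V] {m : ℕ}

private theorem h01 {c : V → V → ZMod m} {s I i : ℕ} {u : V} (H : Vx c s I i u) :
    (0 : ZMod m) ≠ 1 := by
  have : Fact (1 < m) := ⟨by have := H.m3; omega⟩
  exact zero_ne_one

theorem price [NeZero m] {c : V → V → ZMod m} {s I i : ℕ} {u : V} (H : Vx c s I i u) {x : V}
    (hxu : x ≠ u) (hn : ¬ Ex c x) :
    (c u x = 0 → (s : ℤ) ≤ 2 * df s i c u x + 2 + i + I) ∧
      (c u x = 1 → (s : ℤ) + i ≤ 2 * df s i c u x + 1 + I) ∧ (sg s i c u x).card ≤ s + 2 := by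
  rcases gplx H hxu with hP | ⟨w₁, hw1, w₂, hw2, hne, b1, b2⟩
  · rcases H.ex x hxu with hx | hx
    · have h1 := low_price H hxu hx hP hn
      refine ⟨fun _ => h1.1, fun h2 => absurd (hx.symm.trans h2) (h01 H), h1.2⟩
    · have h1 := high_price H hxu hx hP hn
      refine ⟨fun h2 => absurd (h2.symm.trans hx) (h01 H), fun _ => h1.1, h1.2⟩
  · exact near_price H hxu hw1 hw2 hne b1 b2

theorem sig_vx [NeZero m] {c : V → V → ZMod m} {s I i : ℕ} {u : V} (H : Vx c s I i u)
    (G : Finset V) (hG : ∀ w, w ∈ G ↔ Ex c w) {x : V} (hn : ¬ Ex c x) :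
    ((G.erase u).filter (fun w => c u w ≠ c x w)).card ≤ s + 2 := by
  have hxu : x ≠ u := fun h => hn (h ▸ H.ex)
  refine le_trans (card_le_card ?_) (price H hxu hn).2.2
  intro w hw
  obtain ⟨h1, h2⟩ := mem_filter.1 hw
  obtain ⟨h3, h4⟩ := mem_erase.1 h1
  have hwE := (hG w).1 h4
  have hwx : w ≠ x := fun h => hn (h ▸ hwE)
  have hwX : w ∈ XX u x := by
    unfold XX
    exact mem_erase.2 ⟨hwx, mem_erase.2 ⟨h3, mem_univ _⟩⟩
  have ht := tt_ex H hwX hwE
  have e1 := H.ex w h3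
  have e2 := hwE x hwx.symm
  rw [H.sym w x] at e2
  unfold sg
  refine mem_filter.2 ⟨hwX, ?_⟩
  rw [ht]
  unfold yv
  rcases e1 with e1 | e1
  · rcases e2 with e2 | e2
    · exact absurd (e1.trans e2.symm) h2
    · exact Or.inr ⟨e1, by rw [if_pos e2]⟩
  · rcases e2 with e2 | e2
    · exact Or.inl ⟨e1, by rw [if_neg (by rw [e2]; exact h01 H)]⟩
    · exact absurd (e1.trans e2.symm) h2

theorem term_vx [NeZero m] {c : V → V → ZMod m} {s I i : ℕ} {u : V} (H : Vx c s I i u)
    (B : Finset V) (hB : ∀ w, w ∈ B ↔ ¬ Ex c w) (hne : B.Nonempty) :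
    2 * ((B.filter (fun v => c u v = 0)).card : ℤ) * (B.filter (fun v => c u v = 1)).card + 1 ≤
      ((B.filter (fun v => c u v = 0)).card : ℤ) * ((cla c u 1).card - s - 2) +
      ((B.filter (fun v => c u v = 1)).card : ℤ) * ((cla c u 0).card - s - 2) := by
  set B0 := B.filter (fun v => c u v = 0) with hB0
  set B1 := B.filter (fun v => c u v = 1) with hB1
  have hBu : ∀ b ∈ B, b ≠ u := fun b hb h => (hB b).1 hb (h ▸ H.ex)
  have hd : Disjoint B0 B1 := by
    rw [Finset.disjoint_left]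
    intro v h1 h2
    exact h01 H ((mem_filter.1 h1).2.symm.trans (mem_filter.1 h2).2)
  have hun : B0 ∪ B1 = B := by
    ext v
    simp only [hB0, hB1, mem_union, mem_filter]
    constructor
    · rintro (⟨h, _⟩ | ⟨h, _⟩) <;> exact h
    · intro h
      rcases H.ex v (hBu v h) with h2 | h2
      · exact Or.inl ⟨h, h2⟩
      · exact Or.inr ⟨h, h2⟩
  have hcard : B0.card + B1.card = B.card := by
    rw [← card_union_of_disjoint hd, hun]
  have hpos : 0 < B0.card + B1.card := by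
    rw [hcard]
    exact card_pos.2 hne
  have hp0 : ∀ b ∈ B0, (((s - 1 - i - I) / 2 : ℕ) : ℤ) ≤ df s i c u b := by
    intro b hb
    obtain ⟨h1, h2⟩ := mem_filter.1 hb
    have h3 := (price H (hBu b h1) ((hB b).1 h1)).1 h2
    have h4 := df_nonneg H (hBu b h1)
    omega
  have hp1 : ∀ b ∈ B1, (((s + i - I) / 2 : ℕ) : ℤ) ≤ df s i c u b := by
    intro b hb
    obtain ⟨h1, h2⟩ := mem_filter.1 hb
    have h3 := (price H (hBu b h1) ((hB b).1 h1)).2.1 h2
    have h4 := df_nonneg H (hBu b h1)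
    omega
  have hs0 : (B0.card : ℤ) * (((s - 1 - i - I) / 2 : ℕ) : ℤ) ≤ ∑ b ∈ B0, df s i c u b := by
    rw [← nsmul_eq_mul]
    exact Finset.card_nsmul_le_sum _ _ _ hp0
  have hs1 : (B1.card : ℤ) * (((s + i - I) / 2 : ℕ) : ℤ) ≤ ∑ b ∈ B1, df s i c u b := by
    rw [← nsmul_eq_mul]
    exact Finset.card_nsmul_le_sum _ _ _ hp1
  have hsum : ∑ b ∈ B0, df s i c u b + ∑ b ∈ B1, df s i c u b ≤
      ∑ x ∈ univ.erase u, df s i c u x := by
    rw [← Finset.sum_union hd, hun]
    apply Finset.sum_le_sum_of_subset_of_nonneg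
    · intro b hb
      exact mem_erase.2 ⟨hBu b hb, mem_univ _⟩
    · intro b hb _
      exact df_nonneg H (mem_erase.1 hb).1
  have hbud := df_sum H
  have hfin : B0.card * ((s - 1 - i - I) / 2) + B1.card * ((s + i - I) / 2) + i * (i + 1) ≤ s := by
    have : ((B0.card * ((s - 1 - i - I) / 2) + B1.card * ((s + i - I) / 2) + i * (i + 1) : ℕ) : ℤ)
        ≤ s := by
      push_cast at *
      linarith
    exact_mod_cast this
  have hn := num_term H.s5 H.hI H.iI hfin hpos
  have e1 : ((cla c u 1).card : ℤ) = 2 * s - i := by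
    have := H.c1
    have : ((cla c u 1).card : ℤ) + i = 2 * s := by exact_mod_cast this
    linarith
  have e0 : ((cla c u 0).card : ℤ) = 2 * s + 1 + i := by
    exact_mod_cast H.c0
  rw [e1, e0]
  have r1 : (2 * (s : ℤ) - i - s - 2) = s - i - 2 := by ring
  have r2 : (2 * (s : ℤ) + 1 + i - s - 2) = s - 1 + i := by ring
  rw [r1, r2]
  exact hn

end X1
end ZS44129
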