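import Mathlib
import Pool.Agent.Work.MP_44129c_co.X1.Term
import Pool.Agent.Work.MP_44129c_co.X1.Avg
import Pool.Agent.Work.MP_44129c_co.N.NearMF

/-!
# MP_44129c_co/X1, Main (size S-M): one exact vertex gives all; the MF colouring

PROOF of `all_ex`.  `G` = the exact vertices, `B` = the others (classical filters).  Suppose `B ≠ ∅`.  For `u ∈ G`: if `|cla c u 1| ≤ 2 s` then
`exists_vx`, `sig_vx`, `term_vx`; otherwise `|cla c u 0| ≤ 2 s` (`cla_card`), and the same for the reflected colouring `1 - c`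
(`st_refl`, `ex_refl`, `cla_refl`; the roles of the colours `0`, `1` are exchanged, the statement is symmetric).  So
`∑_{w ∈ G} (2 b₀ b₁ + 1) ≤ ∑_{w ∈ G} (b₀ (|cla c w 1| - s - 2) + b₁ (|cla c w 0| - s - 2)) ≤ ∑_{w ∈ G} 2 b₀ b₁` (`avg`): `|G| ≤ 0`:
contradiction to `G ≠ ∅`.
`mf_of_ex`: `two_val_mf` (N/NearMF) with `a = 0`, `a' = 1`.
-/

set_option autoImplicit false

namespace ZS44129
namespace X1

open Finset E

variable {V : Type} [Fintype V] [DecidableEq V] {m : ℕ}

/-- one exact vertex gives all. -/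
theorem all_ex [NeZero m] {c : V → V → ZMod m} {s I : ℕ} (h : St c s I) {u : V} (hu : Ex c u) :
    ∀ x, Ex c x := by
  classical
  by_contra hcon
  push Not at hcon
  obtain ⟨x₀, hx₀⟩ := hcon
  obtain ⟨G, hG⟩ : ∃ G : Finset V, ∀ w, w ∈ G ↔ Ex c w := ⟨univ.filter (fun w => Ex c w), by simp⟩
  obtain ⟨B, hB⟩ : ∃ B : Finset V, ∀ w, w ∈ B ↔ ¬ Ex c w :=
    ⟨univ.filter (fun w => ¬ Ex c w), by simp⟩
  have hBne : B.Nonempty := ⟨x₀, (hB x₀).2 hx₀⟩
  have hm : 2 ≤ m := by have := h.m3; omega
  have h' := st_refl h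
  have hG' : ∀ w, w ∈ G ↔ Ex (fun x w => 1 - c x w) w := fun w => (hG w).trans ex_refl.symm
  have hB' : ∀ w, w ∈ B ↔ ¬ Ex (fun x w => 1 - c x w) w := fun w =>
    (hB w).trans (not_congr ex_refl.symm)
  -- the two inequalities at an exact vertex
  have hsig : ∀ v ∈ G, ∀ x ∈ B, ((G.erase v).filter (fun w => c v w ≠ c x w)).card ≤ s + 2 := by
    intro v hv x hx
    have hvE := (hG v).1 hv
    rcases Nat.lt_or_ge (2 * s) (cla c v 1).card with h2 | h2
    · have h3 := cla_card h hvE
      have h4 : (cla (fun x w => 1 - c x w) v 1).card ≤ 2 * s := by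
        rw [cla_refl, sub_self]
        omega
      obtain ⟨i, H⟩ := exists_vx h' (ex_refl.2 hvE) h4
      have h5 := sig_vx H G hG' ((hB' x).1 hx)
      refine le_trans (le_of_eq ?_) h5
      congr 1
      apply filter_congr
      intro w _
      simp only [ne_eq, sub_right_inj]
    · obtain ⟨i, H⟩ := exists_vx h hvE h2
      exact sig_vx H G hG ((hB x).1 hx)
  have hterm : ∀ v ∈ G, 2 * ((B.filter (fun w => c v w = 0)).card : ℤ) *
      (B.filter (fun w => c v w = 1)).card + 1 ≤
      ((B.filter (fun w => c v w = 0)).card : ℤ) * ((cla c v 1).card - s - 2) +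
      ((B.filter (fun w => c v w = 1)).card : ℤ) * ((cla c v 0).card - s - 2) := by
    intro v hv
    have hvE := (hG v).1 hv
    rcases Nat.lt_or_ge (2 * s) (cla c v 1).card with h2 | h2
    · have h3 := cla_card h hvE
      have h4 : (cla (fun x w => 1 - c x w) v 1).card ≤ 2 * s := by
        rw [cla_refl, sub_self]
        omega
      obtain ⟨i, H⟩ := exists_vx h' (ex_refl.2 hvE) h4
      have h5 := term_vx H B hB' hBne
      rw [cla_refl, cla_refl, sub_self, sub_zero] at h5
      have e0 : B.filter (fun w => 1 - c v w = 0) = B.filter (fun w => c v w = 1) := by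
        apply filter_congr
        intro w _
        rw [sub_eq_zero, eq_comm]
      have e1 : B.filter (fun w => 1 - c v w = 1) = B.filter (fun w => c v w = 0) := by
        apply filter_congr
        intro w _
        rw [sub_eq_self]
      rw [e0, e1] at h5
      linarith
    · obtain ⟨i, H⟩ := exists_vx h hvE h2
      exact term_vx H B hB hBne
  have havg := avg hm h.sym G B hG hB s hsig
  have hsum : ∑ w ∈ G, (2 * ((B.filter (fun v => c w v = 0)).card : ℤ) *
      (B.filter (fun v => c w v = 1)).card + 1) ≤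
      ∑ w ∈ G, (((B.filter (fun v => c w v = 0)).card : ℤ) * ((cla c w 1).card - s - 2) +
      ((B.filter (fun v => c w v = 1)).card : ℤ) * ((cla c w 0).card - s - 2)) :=
    Finset.sum_le_sum hterm
  rw [Finset.sum_add_distrib, Finset.sum_const, nsmul_eq_mul, mul_one] at hsum
  have hGpos : (1 : ℤ) ≤ G.card := by
    exact_mod_cast card_pos.2 ⟨u, (hG u).2 hu⟩
  linarith

theorem mf_of_ex [NeZero m] {c : V → V → ZMod m} {s I : ℕ} (h : St c s I) {u : V} (hu : Ex c u) :
    ∃ b : V → V → Bool, (∀ x y, b x y = b y x) ∧ MF m b :=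
  N.two_val_mf h.sym h.zsf 0 1 (fun x y hxy => all_ex h hu x y (Ne.symm hxy))

end X1
end ZS44129
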